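import Mathlib

/-!
Definitions for the Yorioka ideals (Mathlib has none).
Finite binary strings are `List Bool`, the Cantor space is `ℕ → Bool`.
-/

namespace Pool.Agent.Lib.MP_7d369a_lc

open Filter Cardinal

/-- `Ext s x`: the finite string `s` is an initial segment of `x ∈ 2^ω`. -/
def Ext (s : List Bool) (x : ℕ → Bool) : Prop :=
  ∀ (i : ℕ) (h : i < s.length), s[i] = x i

/-- `[σ]_∞`: the set of all `x ∈ 2^ω` extending `σ n` for infinitely many `n`. -/
def limsupSet (σ : ℕ → List Bool) : Set (ℕ → Bool) :=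
  {x | ∃ᶠ n in atTop, Ext (σ n) x}

/-- `f ≪ g`: for every `k`, `f (n ^ k) ≤ g n` for all but finitely many `n`. -/
def LL (f g : ℕ → ℕ) : Prop :=
  ∀ k : ℕ, ∀ᶠ n in atTop, f (n ^ k) ≤ g n

/-- The Yorioka ideal `I_f`: all `X ⊆ 2^ω` such that `X ⊆ [σ]_∞` for some sequence `σ` of finite
strings with `f ≪ ht_σ`, where `ht_σ n` is the length of `σ n`. -/
def Yorioka (f : ℕ → ℕ) : Set (Set (ℕ → Bool)) :=
  {X | ∃ σ : ℕ → List Bool, LL f (fun n => (σ n).length) ∧ X ⊆ limsupSet σ}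

/-- `add(I)`: the least size of a subfamily of `I` whose union is not in `I`. -/
noncomputable def addIdeal (I : Set (Set (ℕ → Bool))) : Cardinal.{0} :=
  sInf {κ | ∃ F : Set (Set (ℕ → Bool)), F ⊆ I ∧ ⋃₀ F ∉ I ∧ #F = κ}

/-- `cof(I)`: the least size of a subfamily `B` of `I` such that every member of `I` is contained
in some member of `B`. -/
noncomputable def cofIdeal (I : Set (Set (ℕ → Bool))) : Cardinal.{0} :=
  sInf {κ | ∃ B : Set (Set (ℕ → Bool)), B ⊆ I ∧ (∀ X ∈ I, ∃ Y ∈ B, X ⊆ Y) ∧ #B = κ}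

end Pool.Agent.Lib.MP_7d369a_lc
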