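import Pool.Agent.Lib.MP_7d369a_lc.Defs

namespace Pool.Agent.Lib.MP_7d369a_lc

open Filter Cardinal
open scoped ENNReal

/-- the measure of `[s] ∩ [s']` -/
noncomputable def wt (s s' : List Bool) : ℝ≥0∞ :=
  if s <+: s' then (2:ℝ≥0∞)⁻¹ ^ s'.length
  else if s' <+: s then (2:ℝ≥0∞)⁻¹ ^ s.length else 0

lemma half_add (n : ℕ) :
    (2:ℝ≥0∞)⁻¹ ^ (n+1) + (2:ℝ≥0∞)⁻¹ ^ (n+1) = (2:ℝ≥0∞)⁻¹ ^ n := by
  rw [pow_succ, ← mul_add, ENNReal.inv_two_add_inv_two, mul_one]

lemma wt_split (s s' : List Bool) :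
    wt s s' = wt (s ++ [false]) s' + wt (s ++ [true]) s' := by
  unfold wt
  by_cases h1 : s <+: s'
  · obtain ⟨r, rfl⟩ := h1
    cases r with
    | nil =>
      have h2 : ∀ b : Bool, ¬ (s ++ [b] <+: s ++ []) := by
        intro b hb
        have := hb.length_le
        simp at this
      have h3 : ∀ b : Bool, (s ++ [] <+: s ++ [b]) := by
        intro b; simp
      rw [if_pos (List.prefix_append _ _), if_neg (h2 _), if_neg (h2 _), if_pos (h3 _),
        if_pos (h3 _)]
      simp only [List.append_nil, List.length_append, List.length_singleton]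
      exact (half_add _).symm
    | cons b r =>
      have e : s ++ b :: r = (s ++ [b]) ++ r := by simp
      have h2 : (s ++ [b]) <+: s ++ b :: r := by rw [e]; exact List.prefix_append _ _
      have h3 : ¬ ((s ++ [!b]) <+: s ++ b :: r) := by
        intro hb
        rw [List.prefix_append_right_inj] at hb
        have := List.cons_prefix_cons.1 hb
        cases b <;> simp at this
      have h4 : ¬ (s ++ b :: r <+: (s ++ [!b])) := by
        intro hb
        rw [List.prefix_append_right_inj] at hb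
        have := List.cons_prefix_cons.1 hb
        cases b <;> simp at this
      rw [if_pos (List.prefix_append _ _)]
      cases b with
      | false =>
        simp only [Bool.not_false] at h3 h4
        rw [if_pos h2, if_neg h3, if_neg h4, add_zero]
      | true =>
        simp only [Bool.not_true] at h3 h4
        rw [if_pos h2, if_neg h3, if_neg h4, zero_add]
  · have h2 : ∀ b : Bool, ¬ (s ++ [b] <+: s') := fun b hb =>
      h1 ((List.prefix_append _ _).trans hb)
    rw [if_neg h1, if_neg (h2 _), if_neg (h2 _)]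
    by_cases h3 : s' <+: s
    · have h4 : ∀ b : Bool, s' <+: s ++ [b] := fun b => h3.trans (List.prefix_append _ _)
      rw [if_pos h3, if_pos (h4 _), if_pos (h4 _)]
      simp only [List.length_append, List.length_singleton]
      exact (half_add _).symm
    · have h4 : ∀ b : Bool, ¬ (s' <+: s ++ [b]) := by
        intro b hb
        rcases List.prefix_concat_iff.1 hb with h | h
        · subst h
          exact h1 (List.prefix_append _ _)
        · exact h3 h
      rw [if_neg h3, if_neg (h4 _), if_neg (h4 _), add_zero]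

variable {ι : Type}

/-- upper bound for the measure of the part of `[s]` covered by the family `τ` -/
noncomputable def hm (τ : ι → List Bool) (s : List Bool) : ℝ≥0∞ := ∑' m, wt s (τ m)

/-- lower bound for the measure of the uncovered part of `[s]` -/
noncomputable def dl (τ : ι → List Bool) (s : List Bool) : ℝ≥0∞ :=
  (2:ℝ≥0∞)⁻¹ ^ s.length - hm τ s

lemma hm_split (τ : ι → List Bool) (s : List Bool) :
    hm τ s = hm τ (s ++ [false]) + hm τ (s ++ [true]) := by
  unfold hm
  rw [← ENNReal.tsum_add]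
  exact tsum_congr fun m => wt_split s (τ m)

lemma dl_split (τ : ι → List Bool) (s : List Bool) :
    dl τ s ≤ dl τ (s ++ [false]) + dl τ (s ++ [true]) := by
  unfold dl
  rw [hm_split]
  simp only [List.length_append, List.length_singleton]
  rw [← half_add]
  exact add_tsub_add_le_tsub_add_tsub

/-- all binary strings of length `d` -/
def lists : ℕ → Finset (List Bool)
  | 0 => {[]}
  | d+1 => (lists d).image (List.cons false) ∪ (lists d).image (List.cons true)

lemma mem_lists {d : ℕ} {r : List Bool} : r ∈ lists d ↔ r.length = d := by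
  induction d generalizing r with
  | zero => simp [lists]
  | succ d ih =>
    simp only [lists, Finset.mem_union, Finset.mem_image]
    constructor
    · rintro (⟨a, ha, rfl⟩ | ⟨a, ha, rfl⟩) <;> simp [ih.1 ha]
    · intro h
      cases r with
      | nil => simp at h
      | cons b r =>
        have : r.length = d := by simpa using h
        cases b with
        | false => exact Or.inl ⟨r, ih.2 this, rfl⟩
        | true => exact Or.inr ⟨r, ih.2 this, rfl⟩

lemma disj_lists (d : ℕ) :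
    Disjoint ((lists d).image (List.cons false)) ((lists d).image (List.cons true)) := by
  rw [Finset.disjoint_left]
  intro x hx hy
  simp only [Finset.mem_image] at hx hy
  obtain ⟨a, _, rfl⟩ := hx
  obtain ⟨b, _, h⟩ := hy
  simp at h

lemma card_lists (d : ℕ) : (lists d).card = 2 ^ d := by
  induction d with
  | zero => simp [lists]
  | succ d ih =>
    simp only [lists]
    rw [Finset.card_union_of_disjoint (disj_lists d),
      Finset.card_image_of_injective _ (List.cons_injective),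
      Finset.card_image_of_injective _ (List.cons_injective), ih]
    ring

lemma dl_le_sum (τ : ι → List Bool) (d : ℕ) (s : List Bool) :
    dl τ s ≤ ∑ r ∈ lists d, dl τ (s ++ r) := by
  induction d generalizing s with
  | zero => simp [lists]
  | succ d ih =>
    simp only [lists]
    rw [Finset.sum_union (disj_lists d),
      Finset.sum_image (fun a _ b _ h => List.cons_injective h),
      Finset.sum_image (fun a _ b _ h => List.cons_injective h)]
    refine (dl_split τ s).trans (add_le_add ((ih _).trans (le_of_eq ?_)) ((ih _).trans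
      (le_of_eq ?_)))
    · exact Finset.sum_congr rfl fun r _ => by simp
    · exact Finset.sum_congr rfl fun r _ => by simp

lemma dl_le (τ : ι → List Bool) (s : List Bool) : dl τ s ≤ (2:ℝ≥0∞)⁻¹ ^ s.length :=
  tsub_le_self

open Classical in
lemma dl_le_card (τ : ι → List Bool) (d : ℕ) (s : List Bool) :
    dl τ s ≤ ((lists d).filter (fun r => dl τ (s ++ r) ≠ 0)).card *
      (2:ℝ≥0∞)⁻¹ ^ (s.length + d) := by
  refine (dl_le_sum τ d s).trans ?_
  rw [← Finset.sum_filter_ne_zero]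
  refine (Finset.sum_le_card_nsmul _ _ ((2:ℝ≥0∞)⁻¹ ^ (s.length + d)) ?_).trans ?_
  · intro r hr
    have := mem_lists.1 (Finset.mem_filter.1 hr).1
    refine (dl_le _ _).trans (le_of_eq ?_)
    simp [this]
  · rw [nsmul_eq_mul]

lemma two_pow_le_of {a b K : ℕ}
    (h : (2:ℝ≥0∞)⁻¹ ^ a ≤ (K : ℝ≥0∞) * (2:ℝ≥0∞)⁻¹ ^ b) : 2 ^ b ≤ 2 ^ a * K := by
  have h1 : (2:ℝ≥0∞) ^ b * ((2:ℝ≥0∞) ^ a * (2:ℝ≥0∞)⁻¹ ^ a) ≤
      (2:ℝ≥0∞) ^ a * K * ((2:ℝ≥0∞) ^ b * (2:ℝ≥0∞)⁻¹ ^ b) := by
    calc (2:ℝ≥0∞) ^ b * ((2:ℝ≥0∞) ^ a * (2:ℝ≥0∞)⁻¹ ^ a)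
        = (2:ℝ≥0∞) ^ b * (2:ℝ≥0∞) ^ a * (2:ℝ≥0∞)⁻¹ ^ a := by ring
      _ ≤ (2:ℝ≥0∞) ^ b * (2:ℝ≥0∞) ^ a * ((K : ℝ≥0∞) * (2:ℝ≥0∞)⁻¹ ^ b) := by gcongr
      _ = _ := by ring
  have e : ∀ n : ℕ, (2:ℝ≥0∞) ^ n * (2:ℝ≥0∞)⁻¹ ^ n = 1 := by
    intro n
    rw [← mul_pow, ENNReal.mul_inv_cancel (by norm_num) (by norm_num), one_pow]
  rw [e, e, mul_one, mul_one] at h1
  exact_mod_cast h1

lemma tsum_quarter (v : ℕ) : ∑' m : ℕ, (2:ℝ≥0∞)⁻¹ ^ (v + (m + 2)) < (2:ℝ≥0∞)⁻¹ ^ v := by
  have h1 : ∀ m : ℕ, (2:ℝ≥0∞)⁻¹ ^ (v + (m + 2)) = (2:ℝ≥0∞)⁻¹ ^ (v + 2) * (2:ℝ≥0∞)⁻¹ ^ m := by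
    intro m; rw [← pow_add]; congr 1; ring
  rw [tsum_congr h1, ENNReal.tsum_mul_left, ENNReal.tsum_geometric]
  have h2 : (1 - (2:ℝ≥0∞)⁻¹)⁻¹ = 2 := by
    rw [ENNReal.one_sub_inv_two, inv_inv]
  rw [h2, pow_add]
  have h3 : (2:ℝ≥0∞)⁻¹ ^ 2 * 2 = 2⁻¹ := by
    rw [sq, mul_assoc, ENNReal.inv_mul_cancel (by norm_num) (by norm_num), mul_one]
  rw [mul_assoc, h3]
  have h4 : (2:ℝ≥0∞)⁻¹ ^ v ≠ 0 := by
    apply pow_ne_zero; simp
  have h5 : (2:ℝ≥0∞)⁻¹ ^ v ≠ ∞ := by
    apply ENNReal.pow_ne_top; simp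
  calc (2:ℝ≥0∞)⁻¹ ^ v * 2⁻¹ < (2:ℝ≥0∞)⁻¹ ^ v * 1 := by
        rw [ENNReal.mul_lt_mul_iff_right h4 h5]
        exact ENNReal.inv_lt_one.2 (by norm_num)
    _ = _ := mul_one _

lemma half_pow_anti {a b : ℕ} (h : a ≤ b) : (2:ℝ≥0∞)⁻¹ ^ b ≤ (2:ℝ≥0∞)⁻¹ ^ a :=
  pow_le_pow_of_le_one (by simp) (by simp) h

/-- nothing before `s` is in `τ` if `s` is good -/
lemma not_pre_of_good {τ : ι → List Bool} {s : List Bool} (h : dl τ s ≠ 0) (m : ι) :
    ¬ (τ m <+: s) := by
  intro hm'
  apply h
  unfold dl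
  rw [tsub_eq_zero_iff_le]
  unfold hm
  refine le_trans ?_ (ENNReal.le_tsum m)
  unfold wt
  split_ifs with h1
  · have : s = τ m := h1.eq_of_length (le_antisymm h1.length_le hm'.length_le)
    rw [← this]
  · exact le_rfl

lemma root_good {τ : ℕ → List Bool} (hτ : ∀ m, 4 * m + 4 ≤ (τ m).length) : dl τ [] ≠ 0 := by
  unfold dl
  rw [Ne, tsub_eq_zero_iff_le, not_le]
  refine lt_of_le_of_lt ?_ (tsum_quarter 0)
  unfold hm
  apply ENNReal.tsum_le_tsum
  intro m
  unfold wt
  rw [if_pos (List.nil_prefix)]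
  apply half_pow_anti
  have := hτ m
  omega

lemma exists_cover_of_not_good {τ : ℕ → List Bool} {v : List Bool} {r : ℕ}
    (hr : ∀ m, v.length + r < (τ m).length → v.length + m + 2 ≤ (τ m).length)
    (h : dl τ v = 0) :
    ∃ m, (τ m).length ≤ v.length + r ∧ (τ m <+: v ∨ v <+: τ m) := by
  by_contra hcon
  push Not at hcon
  unfold dl at h
  rw [tsub_eq_zero_iff_le] at h
  refine absurd h (not_le.2 (lt_of_le_of_lt ?_ (tsum_quarter v.length)))
  unfold hm
  apply ENNReal.tsum_le_tsum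
  intro m
  unfold wt
  split_ifs with h1 h2
  · apply half_pow_anti
    by_cases hlt : (τ m).length ≤ v.length + r
    · exact absurd h1 (hcon m hlt).2
    · have := hr m (not_le.1 hlt)
      omega
  · exfalso
    have : (τ m).length ≤ v.length + r := by have := h2.length_le; omega
    exact (hcon m this).1 h2
  · exact zero_le

/-- if a finite string and another are both initial segments of `x`, they are comparable -/
lemma pre_of_ext {s t : List Bool} {x : ℕ → Bool} (hs : Ext s x) (ht : Ext t x)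
    (h : s.length ≤ t.length) : s <+: t := by
  rw [List.prefix_iff_eq_take]
  apply List.ext_getElem
  · simp [h]
  · intro i h1 h2
    rw [List.getElem_take, hs i h1, ht i (by omega)]

lemma ext_of_pre {s t : List Bool} {x : ℕ → Bool} (h : s <+: t) (ht : Ext t x) : Ext s x := by
  obtain ⟨r, rfl⟩ := h
  intro i hi
  have := ht i (by simp; omega)
  rw [← this, List.getElem_append_left hi]

/-- Key capturing lemma. -/
theorem capture_aux {τ : ι → List Bool} (hτ : dl τ [] ≠ 0)
    {a : ℕ → ℕ} {u : ℕ → List Bool} (hu : ∀ j, u j ≠ [])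
    (H : ∀ x : ℕ → Bool, (∃ᶠ j in atTop, ∃ t : List Bool, t.length = a j ∧ Ext (t ++ u j) x) →
      ∃ m, Ext (τ m) x) :
    ∃ s, dl τ s ≠ 0 ∧ ∃ J, ∀ j ≥ J, ∀ t : List Bool, t.length = a j → s <+: t →
      dl τ (t ++ u j) = 0 := by
  by_contra hcon
  push Not at hcon
  choose! f1 f2 f3 f4 f5 f6 using hcon
  -- build the sequence
  let seq : ℕ → {s : List Bool // dl τ s ≠ 0} := fun i =>
    Nat.rec ⟨[], hτ⟩ (fun i s => ⟨f3 s.1 i ++ u (f1 s.1 i), f6 s.1 s.2 i⟩) i
  have hs : ∀ i, (seq (i+1)).1 = f3 (seq i).1 i ++ u (f1 (seq i).1 i) := fun i => rfl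
  have hpre : ∀ i, (seq i).1 <+: (seq (i+1)).1 := by
    intro i
    rw [hs]
    exact (f5 (seq i).1 (seq i).2 i).trans (List.prefix_append _ _)
  have hlen : ∀ i, i ≤ (seq i).1.length := by
    intro i
    induction i with
    | zero => exact Nat.zero_le _
    | succ i ih =>
      rw [hs, List.length_append]
      have h1 := (f5 (seq i).1 (seq i).2 i).length_le
      have h2 : 0 < (u (f1 (seq i).1 i)).length := List.length_pos_iff.2 (hu _)
      omega
  have hmono : ∀ i k, (seq i).1 <+: (seq (i+k)).1 := by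
    intro i k
    induction k with
    | zero => exact List.prefix_rfl
    | succ k ih => exact ih.trans (hpre _)
  let x : ℕ → Bool := fun p => (seq (p+1)).1.getD p false
  have hx : ∀ i, Ext (seq i).1 x := by
    intro i p hp
    have h1 : p < (seq (p+1)).1.length := by have := hlen (p+1); omega
    have h2 : x p = (seq (p+1)).1[p] := by
      simp [x, List.getD_eq_getElem?_getD, h1]
    rw [h2]
    have a1 := hmono i (p+1)
    have a2 := hmono (p+1) i
    rw [add_comm (p+1) i] at a2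
    rw [List.prefix_iff_getElem] at a1 a2
    obtain ⟨_, a1⟩ := a1
    obtain ⟨_, a2⟩ := a2
    rw [a1 p hp, a2 p h1]
  obtain ⟨m, hm'⟩ := H x (by
    rw [frequently_atTop]
    intro J
    refine ⟨f1 (seq J).1 J, f2 (seq J).1 (seq J).2 J, f3 (seq J).1 J,
      f4 (seq J).1 (seq J).2 J, ?_⟩
    rw [← hs]
    exact hx (J+1))
  exact not_pre_of_good (seq (τ m).length).2 m (pre_of_ext hm' (hx _) (hlen _))

end Pool.Agent.Lib.MP_7d369a_lc
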