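import Pool.Agent.Lib.MP_7d369a_lc.Capture

namespace Pool.Agent.Lib.MP_7d369a_lc

open Filter Cardinal
open scoped ENNReal

lemma exists_pow_le {x : ℝ≥0∞} (hx : x ≠ 0) : ∃ c : ℕ, (2:ℝ≥0∞)⁻¹ ^ c ≤ x := by
  obtain ⟨n, hn⟩ := ENNReal.exists_inv_two_pow_lt hx
  exact ⟨n, hn.le⟩

lemma add_le_of_strictMono {f : ℕ → ℕ} (hf : StrictMono f) (x y : ℕ) : f x + y ≤ f (x + y) := by
  induction y with
  | zero => exact le_rfl
  | succ y ih =>
    have := hf (Nat.lt_succ_self (x + y))
    have e : x + (y + 1) = (x + y).succ := rfl
    rw [e]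
    omega

open Classical in
theorem capture {f : ℕ → ℕ} (hf : StrictMono f) {σ : ℕ → List Bool}
    (hσ : LL f (fun n => (σ n).length))
    {a q : ℕ → ℕ} {u : ℕ → List Bool} (ha : Tendsto a atTop atTop) (hu : ∀ j, u j ≠ [])
    (hq : ∀ᶠ j in atTop, a j ≤ q j ∧ 4 ≤ q j ∧ (u j).length = f (q j))
    (H : ∀ x : ℕ → Bool, (∃ᶠ j in atTop, ∃ t : List Bool, t.length = a j ∧ Ext (t ++ u j) x) →
      x ∈ limsupSet σ) :
    ∃ c, ∀ᶠ j in atTop, ∀ b M : ℕ, (∀ m, (σ m).length ≤ b → m < M) → 2 ^ c * M < 2 ^ (a j) →
      ∃ m t, t.length = a j ∧ b < (σ m).length ∧ (σ m).length ≤ a j + f (q j) + q j ∧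
        (σ m <+: t ++ u j ∨ t ++ u j <+: σ m) := by
  have h2 := hσ 2
  rw [eventually_atTop] at h2
  obtain ⟨n1, hn1⟩ := h2
  let n0 := n1 + 5
  let τ : ℕ → List Bool := fun m => σ (m + n0)
  have hτ0 : ∀ m, f ((m + n0) ^ 2) ≤ (τ m).length := fun m => hn1 (m + n0) (by omega)
  have hτ : ∀ m, 4 * m + 4 ≤ (τ m).length := by
    intro m
    have h := (hf.le_apply).trans (hτ0 m)
    have : 4 * m + 4 ≤ (m + n0) ^ 2 := by
      have : 5 ≤ m + n0 := by omega
      nlinarith
    exact this.trans h
  obtain ⟨s, hs, J, hJ⟩ := capture_aux (root_good hτ) hu (by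
    intro x hx
    have := H x hx
    simp only [limsupSet, Set.mem_ofPred_eq] at this
    rw [frequently_atTop] at this
    obtain ⟨n, hn, hx'⟩ := this n0
    refine ⟨n - n0, ?_⟩
    simp only [τ]
    rwa [Nat.sub_add_cancel hn])
  obtain ⟨c, hc⟩ := exists_pow_le hs
  refine ⟨c, ?_⟩
  filter_upwards [ha.eventually_ge_atTop s.length, eventually_ge_atTop J, hq] with j hj1 hj2
    ⟨hq1, hq2, hq3⟩
  intro b M hM hlt
  by_contra hcon
  push Not at hcon
  -- the number of good nodes at level `a j` above `s`
  set d := a j - s.length with hd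
  have hcard := dl_le_card τ d s
  have h1 := two_pow_le_of (hc.trans hcard)
  have h2 : s.length + d = a j := by omega
  rw [h2] at h1
  set G := (lists d).filter (fun r => dl τ (s ++ r) ≠ 0) with hG
  -- every good node yields some m < M
  have h3 : G.card ≤ M := by
    have hsub : G.image (fun r => s ++ r) ⊆
        (Finset.range M).image (fun m => (σ m).take (a j)) := by
      intro t ht
      rw [Finset.mem_image] at ht
      obtain ⟨r, hr, rfl⟩ := ht
      rw [hG, Finset.mem_filter, mem_lists] at hr
      obtain ⟨hr1, hr2⟩ := hr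
      have htl : (s ++ r).length = a j := by rw [List.length_append, hr1]; exact h2
      have hz := hJ j hj2 (s ++ r) htl (List.prefix_append _ _)
      have hvl : (s ++ r ++ u j).length = a j + f (q j) := by
        rw [List.length_append, htl, hq3]
      obtain ⟨m, hm1, hm2⟩ := exists_cover_of_not_good (r := q j) (by
        intro m hm
        rw [hvl] at hm ⊢
        by_cases hmq : m + 2 ≤ q j + 1
        · omega
        · have e1 : 4 ≤ m := by omega
          have e2 : q j + (a j + m + 2) ≤ (m + n0) ^ 2 := by
            have g1 : q j + (a j + m + 2) ≤ 4 * m := by omega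
            have g2 : 4 * m ≤ m * m := Nat.mul_le_mul_right _ e1
            have g3 : m * m ≤ (m + n0) ^ 2 := by
              rw [sq]; exact Nat.mul_le_mul (Nat.le_add_right _ _) (Nat.le_add_right _ _)
            exact g1.trans (g2.trans g3)
          have e3 := (add_le_of_strictMono hf (q j) (a j + m + 2)).trans
            ((hf.monotone e2).trans (hτ0 m))
          omega) hz
      rw [hvl] at hm1
      have hpos : 0 < (u j).length := List.length_pos_iff.2 (hu _)
      have hlong : a j < (τ m).length := by
        by_contra hle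
        push Not at hle
        rcases hm2 with h | h
        · exact not_pre_of_good hr2 m
            (List.prefix_of_prefix_length_le h (List.prefix_append _ _) (by rw [htl]; exact hle))
        · have := h.length_le
          rw [List.length_append, htl] at this
          omega
      have hpre : s ++ r <+: τ m := by
        rcases hm2 with h | h
        · exact List.prefix_of_prefix_length_le (List.prefix_append _ _) h
            (by rw [htl]; exact hlong.le)
        · exact (List.prefix_append _ _).trans h
      have hnb : (σ (m + n0)).length ≤ b := by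
        by_contra hb
        push Not at hb
        have := hcon (m + n0) (s ++ r) htl hb hm1
        rcases hm2 with h | h
        · exact this.1 h
        · exact this.2 h
      rw [Finset.mem_image]
      refine ⟨m + n0, Finset.mem_range.2 (hM _ hnb), ?_⟩
      have := List.prefix_iff_eq_take.1 hpre
      rw [htl] at this
      exact this.symm
    calc G.card = (G.image (fun r => s ++ r)).card := by
          rw [Finset.card_image_of_injective]
          intro x y hxy
          exact List.append_cancel_left hxy
      _ ≤ _ := Finset.card_le_card hsub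
      _ ≤ (Finset.range M).card := Finset.card_image_le
      _ = M := Finset.card_range M
  have : 2 ^ c * G.card ≤ 2 ^ c * M := Nat.mul_le_mul_left _ h3
  omega

/-- Enumeration of finite levels by a single sequence. -/
theorem enum {f : ℕ → ℕ} (hf : Monotone f) {S : ℕ → Finset (List Bool)} {N lam : ℕ → ℕ}
    (hN : Monotone N) (hN1 : ∀ j, 1 ≤ N j) (hS : ∀ j, (S j).card ≤ N j)
    (hlam : ∀ j, ∀ s ∈ S j, lam j ≤ s.length)
    (hgrow : ∀ k : ℕ, ∀ᶠ j in atTop, f (((j+1) * N j) ^ k) ≤ lam j) :
    ∃ ρ : ℕ → List Bool, LL f (fun n => (ρ n).length) ∧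
      ∀ x : ℕ → Bool, (∃ᶠ j in atTop, ∃ s ∈ S j, Ext s x) → x ∈ limsupSet ρ := by
  classical
  let c : ℕ → ℕ := fun j => ∑ i ∈ Finset.range j, N i
  have hcs : ∀ j, c (j+1) = c j + N j := fun j => Finset.sum_range_succ _ _
  have hc : Monotone c := monotone_nat_of_le_succ fun j => by rw [hcs]; exact Nat.le_add_right _ _
  have hcj : ∀ j, j ≤ c j := by
    intro j
    induction j with
    | zero => exact Nat.zero_le _
    | succ j ih => rw [hcs]; have := hN1 j; omega
  have hcb : ∀ j, c (j+1) ≤ (j+1) * N j := by
    intro j
    have : c (j+1) ≤ (Finset.range (j+1)).card • N j := by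
      apply Finset.sum_le_card_nsmul
      intro i hi
      exact hN (Nat.lt_succ_iff.1 (Finset.mem_range.1 hi))
    simpa using this
  let lev : ℕ → ℕ := fun n => Nat.findGreatest (fun j => c j ≤ n) n
  have hlev0 : ∀ n, c (lev n) ≤ n := by
    intro n
    have : (fun j => c j ≤ n) (lev n) :=
      Nat.findGreatest_spec (P := fun j => c j ≤ n) (m := 0) (Nat.zero_le _) (by simp [c])
    exact this
  have hlev1 : ∀ n, n < c (lev n + 1) := by
    intro n
    by_contra hcon
    push Not at hcon
    have h1 : lev n + 1 ≤ n := (hcj _).trans hcon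
    have := Nat.findGreatest_is_greatest (P := fun j => c j ≤ n) (n := n) (k := lev n + 1)
      (Nat.lt_succ_self _) h1
    exact this hcon
  have hlevt : Tendsto lev atTop atTop := by
    rw [tendsto_atTop]
    intro J
    filter_upwards [eventually_ge_atTop (max (c J) J)] with n hn
    exact Nat.le_findGreatest ((le_max_right _ _).trans hn) ((le_max_left _ _).trans hn)
  have hlevu : ∀ j n, c j ≤ n → n < c (j+1) → lev n = j := by
    intro j n h1 h2
    apply le_antisymm
    · by_contra hlt
      push Not at hlt
      have := hc (Nat.succ_le_of_lt hlt)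
      have h3 := hlev0 n
      have : c (j+1) ≤ n := this.trans h3
      omega
    · exact Nat.le_findGreatest ((hcj j).trans h1) h1
  let ρ : ℕ → List Bool := fun n =>
    (S (lev n)).toList.getD (n - c (lev n)) (List.replicate (lam (lev n)) false)
  refine ⟨ρ, ?_, ?_⟩
  · intro k
    filter_upwards [hlevt.eventually (hgrow k)] with n hn
    have h1 : lam (lev n) ≤ (ρ n).length := by
      simp only [ρ]
      by_cases h : n - c (lev n) < (S (lev n)).toList.length
      · rw [List.getD_eq_getElem _ _ h]
        apply hlam
        rw [← Finset.mem_toList]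
        exact List.getElem_mem h
      · rw [List.getD_eq_default _ _ (not_lt.1 h)]
        simp
    refine le_trans ?_ (hn.trans h1)
    apply hf
    exact Nat.pow_le_pow_left ((hlev1 n).le.trans (hcb _)) k
  · intro x hx
    simp only [limsupSet, Set.mem_ofPred_eq]
    rw [frequently_atTop] at hx ⊢
    intro n0
    obtain ⟨j, hj, s, hs, hsx⟩ := hx n0
    rw [← Finset.mem_toList] at hs
    obtain ⟨q, hq, hqs⟩ := List.getElem_of_mem hs
    have hq' : q < N j := by
      rw [Finset.length_toList] at hq
      exact hq.trans_le (hS j)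
    refine ⟨c j + q, ?_, ?_⟩
    · have := hcj j
      omega
    · have hl : lev (c j + q) = j := hlevu j _ (Nat.le_add_right _ _) (by
        have := hcs j
        omega)
      have : ρ (c j + q) = s := by
        simp only [ρ]
        rw [hl, Nat.add_sub_cancel_left, List.getD_eq_getElem _ _ hq, hqs]
      rw [this]
      exact hsx

end Pool.Agent.Lib.MP_7d369a_lc
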