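import Pool.Agent.Lib.MP_7d369a_lc.Final

namespace Pool.Agent.Lib.MP_7d369a_lc

open Filter Cardinal

/-- `κ ≤ b(R)` -/
def Pb (κ : Cardinal.{0}) : ∀ {α β : Type}, (α → β → Prop) → Prop :=
  fun {α _} R => ∀ A : Set α, #A < κ → ∃ b, ∀ a ∈ A, R a b

/-- `d(R) ≤ μ` -/
def Pd (μ : Cardinal.{0}) : ∀ {α β : Type}, (α → β → Prop) → Prop :=
  fun {_ β} R => ∃ D : Set β, #D ≤ μ ∧ ∀ a, ∃ b ∈ D, R a b

/-- `d(R)` is finite -/
def Pf : ∀ {α β : Type}, (α → β → Prop) → Prop :=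
  fun {_ β} R => ∃ D : Set β, D.Finite ∧ ∀ a, ∃ b ∈ D, R a b

lemma closed_Pb (κ : Cardinal.{0}) : CompClosed (@Pb κ) := by
  intro α β ε ζ γ δ R S T u v w h hR hS A hA
  obtain ⟨b, hb⟩ := hR (u '' A) (mk_image_le.trans_lt hA)
  obtain ⟨d, hd⟩ := hS b (v b '' A) (mk_image_le.trans_lt hA)
  exact ⟨w b d, fun e he => h e b d (hb _ ⟨e, he, rfl⟩) (hd _ ⟨e, he, rfl⟩)⟩

lemma closed_Pd {μ : Cardinal.{0}} (hμ : ℵ₀ ≤ μ) : CompClosed (@Pd μ) := by
  intro α β ε ζ γ δ R S T u v w h ⟨D1, h1, h1'⟩ hS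
  choose D2 h2 h2' using hS
  refine ⟨⋃ b : D1, (w b.1) '' D2 b.1, ?_, ?_⟩
  · refine (mk_iUnion_le_sum_mk).trans ?_
    refine (Cardinal.sum_le_sum _ (fun _ => μ) fun b => mk_image_le.trans (h2 b.1)).trans ?_
    rw [Cardinal.sum_const', ]
    exact (mul_le_mul' h1 le_rfl).trans (mul_eq_self hμ).le
  · intro e
    obtain ⟨b, hb, hb'⟩ := h1' (u e)
    obtain ⟨d, hd, hd'⟩ := h2' b (v b e)
    exact ⟨w b d, Set.mem_iUnion.2 ⟨⟨b, hb⟩, d, hd, rfl⟩, h e b d hb' hd'⟩

lemma closed_Pf : CompClosed @Pf := by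
  intro α β ε ζ γ δ R S T u v w h ⟨D1, h1, h1'⟩ hS
  choose D2 h2 h2' using hS
  refine ⟨⋃ b ∈ D1, (w b) '' D2 b, h1.biUnion fun b _ => (h2 b).image _, ?_⟩
  intro e
  obtain ⟨b, hb, hb'⟩ := h1' (u e)
  obtain ⟨d, hd, hd'⟩ := h2' b (v b e)
  exact ⟨w b d, Set.mem_biUnion hb ⟨d, hd, rfl⟩, h e b d hb' hd'⟩

lemma not_Pf_Dom : ¬ Pf Dom := by
  rintro ⟨D, hD, h⟩
  obtain ⟨b, hb, hb'⟩ := h (fun n => (∑ t ∈ hD.toFinset, t n) + 1)
  unfold Dom at hb'
  obtain ⟨n, hn⟩ := hb'.exists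
  beta_reduce at hn
  have : b n ≤ ∑ t ∈ hD.toFinset, t n :=
    Finset.single_le_sum (f := fun t : ℕ → ℕ => t n) (fun _ _ => Nat.zero_le _)
      (hD.mem_toFinset.2 hb)
  omega

lemma not_Pf_RC {f : ℕ → ℕ} (hf : StrictMono f) : ¬ Pf (RC f) := fun h =>
  not_Pf_Dom (step1 closed_Pf hf h)

lemma limsup_mem {f : ℕ → ℕ} (σ : Code f) : limsupSet σ.1 ∈ Yorioka f := ⟨σ.1, σ.2, le_rfl⟩

lemma exists_code {f : ℕ → ℕ} {X : Set (ℕ → Bool)} (h : X ∈ Yorioka f) :
    ∃ σ : Code f, X ⊆ limsupSet σ.1 := by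
  obtain ⟨σ, h1, h2⟩ := h
  exact ⟨⟨σ, h1⟩, h2⟩

lemma univ_not_mem {f : ℕ → ℕ} (hf : StrictMono f) : Set.univ ∉ Yorioka f := by
  intro h
  obtain ⟨τ, hτ⟩ := exists_code h
  exact not_Pf_RC hf ⟨{τ}, Set.finite_singleton _, fun σ => ⟨τ, rfl, fun x _ => hτ trivial⟩⟩

lemma singleton_mem {f : ℕ → ℕ} (hf : StrictMono f) (x : ℕ → Bool) : {x} ∈ Yorioka f := by
  refine ⟨fun n => List.ofFn (fun i : Fin (f (n ^ n)) => x i), ?_, ?_⟩
  · intro k
    filter_upwards [eventually_ge_atTop (max k 1)] with n hn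
    simp only [List.length_ofFn]
    apply hf.monotone
    exact Nat.pow_le_pow_right ((le_max_right _ _).trans hn) ((le_max_left _ _).trans hn)
  · intro y hy
    rw [Set.mem_singleton_iff] at hy
    subst hy
    apply Eventually.frequently
    refine Eventually.of_forall fun n i hi => ?_
    simp

lemma sUnion_eq {f : ℕ → ℕ} (hf : StrictMono f) : ⋃₀ (Yorioka f) = Set.univ := by
  ext x
  simp only [Set.mem_sUnion, Set.mem_univ, iff_true]
  exact ⟨{x}, singleton_mem hf x, rfl⟩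

theorem le_add_iff {f : ℕ → ℕ} (hf : StrictMono f) (κ : Cardinal.{0}) :
    κ ≤ addIdeal (Yorioka f) ↔ Pb κ (RC f) := by
  constructor
  · intro h A hA
    by_contra hcon
    push Not at hcon
    have hmem : ⋃₀ ((fun σ : Code f => limsupSet σ.1) '' A) ∉ Yorioka f := by
      intro hin
      obtain ⟨τ, hτ⟩ := exists_code hin
      obtain ⟨σ, hσ, hn⟩ := hcon τ
      exact hn (fun x hx => hτ ⟨_, ⟨σ, hσ, rfl⟩, hx⟩)
    have h1 : addIdeal (Yorioka f) ≤ #((fun σ : Code f => limsupSet σ.1) '' A) := by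
      apply csInf_le'
      refine ⟨_, ?_, hmem, rfl⟩
      rintro _ ⟨σ, _, rfl⟩
      exact limsup_mem σ
    exact absurd (h.trans (h1.trans mk_image_le)) (not_le.2 hA)
  · intro h
    apply le_csInf
    · exact ⟨_, Yorioka f, le_rfl, by rw [sUnion_eq hf]; exact univ_not_mem hf, rfl⟩
    · rintro _ ⟨F, hF, hF2, rfl⟩
      by_contra hlt
      push Not at hlt
      apply hF2
      have hc : ∀ X : F, ∃ σ : Code f, X.1 ⊆ limsupSet σ.1 := fun X => exists_code (hF X.2)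
      choose c hc using hc
      obtain ⟨τ, hτ⟩ := h (Set.range c) (mk_range_le.trans_lt hlt)
      refine ⟨τ.1, τ.2, ?_⟩
      rintro x ⟨X, hX, hx⟩
      exact hτ (c ⟨X, hX⟩) ⟨_, rfl⟩ (hc ⟨X, hX⟩ hx)

theorem cof_le_iff {f : ℕ → ℕ} (μ : Cardinal.{0}) :
    cofIdeal (Yorioka f) ≤ μ ↔ Pd μ (RC f) := by
  constructor
  · intro h
    have hne : {κ | ∃ B : Set (Set (ℕ → Bool)), B ⊆ Yorioka f ∧
        (∀ X ∈ Yorioka f, ∃ Y ∈ B, X ⊆ Y) ∧ #B = κ}.Nonempty :=
      ⟨_, Yorioka f, le_rfl, fun X hX => ⟨X, hX, le_rfl⟩, rfl⟩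
    obtain ⟨B, hB, hB2, hB3⟩ := csInf_mem hne
    have hc : ∀ X : B, ∃ σ : Code f, X.1 ⊆ limsupSet σ.1 := fun X => exists_code (hB X.2)
    choose c hc using hc
    refine ⟨Set.range c, ?_, ?_⟩
    · refine mk_range_le.trans ?_
      rw [hB3]
      exact h
    · intro σ
      obtain ⟨Y, hY, hY2⟩ := hB2 _ (limsup_mem σ)
      exact ⟨c ⟨Y, hY⟩, ⟨_, rfl⟩, hY2.trans (hc ⟨Y, hY⟩)⟩
  · rintro ⟨D, hD, hD2⟩
    refine le_trans ?_ hD
    refine le_trans ?_ (mk_image_le (f := fun σ : Code f => limsupSet σ.1) (s := D))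
    apply csInf_le'
    refine ⟨_, ?_, ?_, rfl⟩
    · rintro _ ⟨σ, _, rfl⟩
      exact limsup_mem σ
    · intro X hX
      obtain ⟨σ, hσ⟩ := exists_code hX
      obtain ⟨τ, hτ, hτ2⟩ := hD2 σ
      exact ⟨_, ⟨τ, hτ, rfl⟩, hσ.trans hτ2⟩

lemma inf_of_Pd {f : ℕ → ℕ} (hf : StrictMono f) {μ : Cardinal.{0}} (h : Pd μ (RC f)) :
    ℵ₀ ≤ μ := by
  by_contra hlt
  push Not at hlt
  obtain ⟨D, hD, hD2⟩ := h
  exact not_Pf_RC hf ⟨D, (Cardinal.lt_aleph0_iff_set_finite.1 (hD.trans_lt hlt)), hD2⟩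

/-- Comparison theorem. -/
theorem compare {f g : ℕ → ℕ} (hf : StrictMono f) (hg : StrictMono g) {r : ℕ}
    (hgr : ∀ᶠ n in atTop, g n ≤ (fun x => f (2 ^ x))^[r] (f n)) :
    addIdeal (Yorioka f) ≤ addIdeal (Yorioka g) ∧
      cofIdeal (Yorioka g) ≤ cofIdeal (Yorioka f) := by
  constructor
  · rw [le_add_iff hg]
    exact transfer (closed_Pb _) hf hg hgr ((le_add_iff hf _).1 le_rfl)
  · rw [cof_le_iff]
    have h := (cof_le_iff (f := f) _).1 le_rfl
    exact transfer (closed_Pd (inf_of_Pd hf h)) hf hg hgr h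

theorem both_eq {g : ℕ → ℕ} (hg : StrictMono g) {k : ℕ}
    (hgk : ∀ᶠ n in atTop, g n ≤ (fun m => 2 ^ m)^[k] n) :
    addIdeal (Yorioka g) = addIdeal (Yorioka id) ∧
      cofIdeal (Yorioka g) = cofIdeal (Yorioka id) := by
  have h1 := compare (f := id) (g := g) strictMono_id hg (r := k) hgk
  have h2 := compare (f := g) (g := id) hg strictMono_id (r := 0)
    (Eventually.of_forall fun n => hg.le_apply)
  exact ⟨le_antisymm h2.1 h1.1, le_antisymm h1.2 h2.2⟩

/-- if `f` is not polynomially bounded, then `I_f ≠ I_id` -/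
theorem ne_of_not_poly {f : ℕ → ℕ} (hf : StrictMono f)
    (hp : ¬ ∃ k, ∀ᶠ n in atTop, f n ≤ n ^ k) : Yorioka f ≠ Yorioka id := by
  intro heq
  push Not at hp
  -- choose the scales
  have hex : ∀ k N : ℕ, ∃ n ≥ N, n ^ k < f n := by
    intro k N
    have := hp k
    rw [frequently_atTop] at this
    obtain ⟨n, hn, h⟩ := this N
    exact ⟨n, hn, h⟩
  choose sc hsc1 hsc2 using hex
  -- n_j with f(n_j) > n_j ^ (j + 3), n_j ≥ 2 ^ j, increasing
  let n : ℕ → ℕ := fun j => Nat.rec (sc 3 1) (fun j p => sc (j + 4) (p + 2 ^ (j + 1))) j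
  have hn0 : ∀ j, n (j+1) = sc (j+4) (n j + 2 ^ (j+1)) := fun j => rfl
  have hnf : ∀ j, n j ^ (j + 3) < f (n j) := by
    intro j
    cases j with
    | zero => exact hsc2 _ _
    | succ j => rw [hn0]; exact hsc2 _ _
  have hnm : Monotone n := by
    apply monotone_nat_of_le_succ
    intro j
    have := hsc1 (j+4) (n j + 2 ^ (j+1))
    rw [hn0]
    exact le_trans (Nat.le_add_right _ _) this
  have hn2 : ∀ j, 2 ^ j ≤ n j := by
    intro j
    cases j with
    | zero => exact hsc1 3 1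
    | succ j =>
      rw [hn0]
      exact le_trans (Nat.le_add_left _ _) (hsc1 _ _)
  let a : ℕ → ℕ := fun j => Nat.log 2 (n j)
  have ha : Monotone a := fun i j hij => Nat.log_mono_right (hnm hij)
  have hja : ∀ j, j ≤ a j := fun j => Nat.le_log_of_pow_le (by norm_num) (hn2 j)
  have han : ∀ j, 2 ^ a j ≤ n j := fun j =>
    Nat.pow_log_le_self 2 (by have := hn2 j; have h2 : 0 < 2 ^ j := by positivity
                              omega)
  have hna : ∀ j, n j < 2 ^ (a j + 1) := fun j => Nat.lt_pow_succ_log_self (by norm_num) _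
  obtain ⟨ρ, hρ⟩ := exists_code1 strictMono_id ha hja
  have h1 : limsupSet ρ.1 ∈ Yorioka f := by
    rw [heq]; exact limsup_mem ρ
  obtain ⟨σ, hσ⟩ := exists_code h1
  have hσid : LL id (fun n => (σ.1 n).length) := by
    intro k
    filter_upwards [σ.2 k] with m hm
    exact hf.le_apply.trans hm
  have hat : Tendsto a atTop atTop := tendsto_atTop_mono hja tendsto_id
  obtain ⟨c, hc⟩ := capture strictMono_id hσid (a := a) (q := fun j => 2 ^ (a j * j))
    (u := u1 id a) hat (u1_ne strictMono_id _)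
    (by
      filter_upwards [eventually_ge_atTop 2] with j hj
      have h0 := hja j
      refine ⟨?_, ?_, length_u1 _ _ _⟩
      · have h1 : a j < 2 ^ (a j) := Nat.lt_two_pow_self
        have h2 : 2 ^ (a j) ≤ 2 ^ (a j * j) :=
          Nat.pow_le_pow_right (by norm_num) (Nat.le_mul_of_pos_right _ (by omega))
        exact h1.le.trans h2
      · have : 2 ^ 2 ≤ 2 ^ (a j * j) :=
          Nat.pow_le_pow_right (by norm_num) (by nlinarith)
        simpa using this)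
    (fun x hx => hσ (hρ x hx))
  obtain ⟨j, hj, hj1⟩ := (hc.and (eventually_ge_atTop (2 * thr σ 2 + 2 * c + 12))).exists
  have h0 := hja j
  set e := a j / 2 with he
  obtain ⟨m, t, _, h2, h3, _⟩ := hj (a j + id (2 ^ (a j * j)) + 2 ^ (a j * j))
    (thr σ 2 + (2 ^ (e + 1)) + 1)
    (by
      intro m hm
      by_contra hge
      push Not at hge
      have h4 : (σ.1 m).length ≤ f (n j) := by
        refine hm.trans ?_
        have g1 : a j < 2 ^ a j := Nat.lt_two_pow_self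
        have g2 : 2 ^ (a j) ≤ 2 ^ (a j * j) :=
          Nat.pow_le_pow_right (by norm_num) (Nat.le_mul_of_pos_right _ (by omega))
        have g3 : a j + id (2 ^ (a j * j)) + 2 ^ (a j * j) ≤ 4 * 2 ^ (a j * j) := by
          simp only [id]; omega
        have g4 : 2 ^ (a j * j) ≤ n j ^ j := by
          rw [pow_mul]; exact Nat.pow_le_pow_left (han j) j
        have g5 : 4 ≤ n j ^ 3 := by
          have : 2 ^ j ≤ n j := hn2 j
          have h22 : 2 ^ 2 ≤ 2 ^ j := Nat.pow_le_pow_right (by norm_num) (by omega)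
          have : 4 ≤ n j := by omega
          exact this.trans (Nat.le_self_pow (by norm_num) _)
        calc a j + id (2 ^ (a j * j)) + 2 ^ (a j * j) ≤ 4 * 2 ^ (a j * j) := g3
          _ ≤ n j ^ 3 * n j ^ j := Nat.mul_le_mul g5 g4
          _ = n j ^ (j + 3) := by rw [← pow_add]; congr 1; ring
          _ ≤ f (n j) := (hnf j).le
      have h5 : m ≤ 2 ^ (e + 1) := count_bound hf σ (k := 2) (x := n j) (y := 0)
        ((Nat.le_add_right _ _).trans ((Nat.le_add_right _ _).trans hge))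
        (by simpa using h4) (by
          have : n j < 2 ^ (a j + 1) := hna j
          have g : 2 ^ (a j + 1) ≤ (2 ^ (e + 1)) ^ 2 := by
            rw [← pow_mul]
            exact Nat.pow_le_pow_right (by norm_num) (by omega)
          omega) (by norm_num)
      omega)
    (by
      have h1 : e < 2 ^ e := Nat.lt_two_pow_self
      have h2 : 2 ^ (e + 1) = 2 * 2 ^ e := by ring
      calc 2 ^ c * (thr σ 2 + 2 ^ (e + 1) + 1) ≤ 2 ^ c * (2 ^ 2 * 2 ^ e) := by
            apply Nat.mul_le_mul_left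
            rw [h2]
            have : thr σ 2 ≤ e := by omega
            omega
        _ = 2 ^ (c + 2 + e) := by rw [← pow_add, ← pow_add]; congr 1; ring
        _ < 2 ^ (a j) := Nat.pow_lt_pow_right (by norm_num) (by omega))
  exact absurd h2 (not_lt.2 h3)

theorem eq_iff_poly {f : ℕ → ℕ} (hf : StrictMono f) :
    Yorioka f = Yorioka id ↔ ∃ k, ∀ᶠ n in atTop, f n ≤ n ^ k := by
  constructor
  · intro h
    by_contra hcon
    exact ne_of_not_poly hf hcon h
  · rintro ⟨k, hk⟩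
    apply Set.Subset.antisymm
    · rintro X ⟨σ, h1, h2⟩
      refine ⟨σ, fun j => ?_, h2⟩
      filter_upwards [h1 j] with n hn
      exact hf.le_apply.trans hn
    · rintro X ⟨σ, h1, h2⟩
      refine ⟨σ, fun j => ?_, h2⟩
      rcases Nat.eq_zero_or_pos j with rfl | hj
      · simp only [pow_zero]
        filter_upwards [h1 1, eventually_ge_atTop (f 1)] with n hn hn2
        simp only [id, pow_one] at hn
        exact hn2.trans hn
      · have ht : Tendsto (fun n : ℕ => n ^ j) atTop atTop :=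
          tendsto_pow_atTop (by omega)
        filter_upwards [h1 (j * k), ht.eventually hk] with n hn hn2
        simp only [id] at hn
        rw [pow_mul] at hn
        exact hn2.trans hn

end Pool.Agent.Lib.MP_7d369a_lc
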