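import Pool.Agent.Lib.MP_7d369a_lc.LocComp

namespace Pool.Agent.Lib.MP_7d369a_lc

open Filter Cardinal

variable {P : ∀ {α β : Type}, (α → β → Prop) → Prop}

noncomputable section S6

/-- the slow function read off from a dominating function -/
def KK (t : ℕ → ℕ) (i : ℕ) : ℕ := Nat.findGreatest (fun k => t k ≤ 2 ^ i) i

lemma KK_le (t : ℕ → ℕ) (i : ℕ) : KK t i ≤ i := Nat.findGreatest_le i

lemma KK_tendsto (t : ℕ → ℕ) : Tendsto (KK t) atTop atTop := by
  rw [tendsto_atTop]
  intro k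
  filter_upwards [eventually_ge_atTop (max k (t k))] with i hi
  refine Nat.le_findGreatest ((le_max_left _ _).trans hi) ?_
  have : i < 2 ^ i := Nat.lt_two_pow_self
  exact ((le_max_right _ _).trans hi).trans this.le

lemma KK_spec (t : ℕ → ℕ) (i : ℕ) (h : KK t i ≠ 0) : t (KK t i) ≤ 2 ^ i :=
  Nat.findGreatest_of_ne_zero (P := fun k => t k ≤ 2 ^ i) rfl h

def pp (g t : ℕ → ℕ) (i : ℕ) : ℕ := g (2 ^ (i * KK t i))

/-- the block code -/
def blk (g t : ℕ → ℕ) (σ : ℕ → List Bool) (i : ℕ) : ℕ :=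
  Nat.ofBits (fun q : Fin (2 ^ i * pp g t i) =>
    (σ (2 ^ i + q / pp g t i)).getD (q % pp g t i) false)

/-- decoding of one string of a block -/
def strOf (p v r : ℕ) : List Bool := List.ofFn (fun s : Fin p => v.testBit (r * p + s))

def SS (g t : ℕ → ℕ) (φ : ℕ → Finset ℕ) (i : ℕ) : Finset (List Bool) :=
  (φ i ×ˢ Finset.range (2 ^ i)).image (fun q => strOf (pp g t i) q.1 q.2)

lemma exists_w6 {g : ℕ → ℕ} (hg : StrictMono g) (t : ℕ → ℕ)
    (φ : {φ : ℕ → Finset ℕ // ∀ j, (φ j).card ≤ 2 ^ j}) :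
    ∃ ρ : Code g, ∀ x : ℕ → Bool, (∃ᶠ j in atTop, ∃ s ∈ SS g t φ.1 j, Ext s x) →
      x ∈ limsupSet ρ.1 := by
  obtain ⟨ρ, h1, h2⟩ := enum (f := g) hg.monotone (S := SS g t φ.1)
    (N := fun j => 4 ^ j) (lam := fun j => pp g t j)
    (fun i j hij => Nat.pow_le_pow_right (by norm_num) hij)
    (fun j => Nat.one_le_pow _ _ (by norm_num))
    (fun j => by
      refine Finset.card_image_le.trans ?_
      rw [Finset.card_product, Finset.card_range]
      calc (φ.1 j).card * 2 ^ j ≤ 2 ^ j * 2 ^ j := Nat.mul_le_mul_right _ (φ.2 j)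
        _ = 4 ^ j := by rw [← mul_pow]; norm_num)
    (fun j s hs => by
      obtain ⟨q, _, rfl⟩ := Finset.mem_image.1 hs
      simp [strOf])
    (by
      intro k
      filter_upwards [(KK_tendsto t).eventually_ge_atTop (3 * k)] with j hj
      unfold pp
      apply hg.monotone
      have h1 : j + 1 ≤ 2 ^ j := Nat.lt_two_pow_self
      calc ((j+1) * 4 ^ j) ^ k ≤ (2 ^ j * 4 ^ j) ^ k := by gcongr
        _ = 2 ^ (j * (3 * k)) := by
            have : (4:ℕ) ^ j = 2 ^ (2 * j) := by rw [pow_mul]; norm_num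
            rw [this, ← pow_add, ← pow_mul]; congr 1; ring
        _ ≤ 2 ^ (j * KK t j) := Nat.pow_le_pow_right (by norm_num) (Nat.mul_le_mul_left _ hj))
  exact ⟨⟨ρ, h1⟩, h2⟩

lemma strOf_blk {g t : ℕ → ℕ} {σ : ℕ → List Bool} {i r : ℕ} {x : ℕ → Bool} (hr : r < 2 ^ i)
    (hx : Ext (σ (2 ^ i + r)) x) (hl : pp g t i ≤ (σ (2 ^ i + r)).length) :
    Ext (strOf (pp g t i) (blk g t σ i) r) x := by
  intro q hq
  have hq' : q < pp g t i := by simpa [strOf] using hq
  have hlt : r * pp g t i + q < 2 ^ i * pp g t i := by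
    calc r * pp g t i + q < r * pp g t i + pp g t i := Nat.add_lt_add_left hq' _
      _ = (r + 1) * pp g t i := by ring
      _ ≤ 2 ^ i * pp g t i := Nat.mul_le_mul_right _ hr
  have hd : (r * pp g t i + q) / pp g t i = r := by
    rw [mul_comm, Nat.mul_add_div (by omega), Nat.div_eq_of_lt hq', add_zero]
  have hm : (r * pp g t i + q) % pp g t i = q := by
    rw [mul_comm, Nat.mul_add_mod, Nat.mod_eq_of_lt hq']
  simp only [strOf, List.getElem_ofFn]
  unfold blk
  rw [Nat.testBit_ofBits_lt _ _ hlt]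
  simp only [hd, hm]
  rw [List.getD_eq_getElem _ _ (hq'.trans_le hl)]
  exact hx q _

theorem step6 (hP : CompClosed @P) {g : ℕ → ℕ} (hg : StrictMono g) (H1 : P Dom)
    (H2 : Good @P (fun i => 2 ^ i * g (2 ^ (i ^ 2)))) : P (RC g) := by
  classical
  refine comp hP Dom (Loc (fun i => 2 ^ (2 ^ i * g (2 ^ (i ^ 2)))) (fun i => 2 ^ i)) (RC g)
    (fun σ => thr σ)
    (fun t σ => ⟨fun i => blk g t σ.1 i, by
      intro i
      refine (Nat.ofBits_lt_two_pow _).trans_le ?_
      apply Nat.pow_le_pow_right (by norm_num)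
      apply Nat.mul_le_mul_left
      unfold pp
      apply hg.monotone
      apply Nat.pow_le_pow_right (by norm_num)
      rw [sq]
      exact Nat.mul_le_mul_left _ (KK_le t i)⟩)
    (fun t φ => (exists_w6 hg t φ).choose) ?_ H1 H2
  intro σ t φ h1 h2
  have hspec := (exists_w6 hg t φ).choose_spec
  intro x hx
  apply hspec
  -- frequently
  have hlog : Tendsto (Nat.log 2) atTop atTop := by
    rw [tendsto_atTop]
    intro b
    filter_upwards [eventually_ge_atTop (2 ^ b)] with m hm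
    exact Nat.le_log_of_pow_le (by norm_num) hm
  have hev : ∀ᶠ i in atTop, (∀ K, K = KK t i → thr σ K ≤ t K) ∧ KK t i ≠ 0 ∧
      blk g t σ.1 i ∈ φ.1 i := by
    have ha : ∀ᶠ i in atTop, thr σ (KK t i) ≤ t (KK t i) := (KK_tendsto t).eventually h1
    filter_upwards [ha, (KK_tendsto t).eventually_ge_atTop 1, h2]
      with i h3 h4 h5
    exact ⟨fun K hK => by rw [hK]; exact h3, by omega, h5⟩
  have hx' : ∃ᶠ m in atTop, Ext (σ.1 m) x := hx
  have hfr := hx'.and_eventually ((hlog.eventually hev).and (eventually_ge_atTop 1))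
  refine (hlog.frequently (p := fun i => ∃ s ∈ SS g t φ.1 i, Ext s x) (hfr.mono ?_))
  rintro m ⟨hm1, ⟨hm2, hm3, hm4⟩, hm5⟩
  set i := Nat.log 2 m with hi
  have hle : 2 ^ i ≤ m := Nat.pow_log_le_self 2 (by omega)
  have hlt : m < 2 ^ (i + 1) := Nat.lt_pow_succ_log_self (by norm_num) m
  have hr : m - 2 ^ i < 2 ^ i := by
    rw [pow_succ] at hlt; omega
  have hmr : 2 ^ i + (m - 2 ^ i) = m := by omega
  have hlen : pp g t i ≤ (σ.1 m).length := by
    have h3 : thr σ (KK t i) ≤ m := ((hm2 _ rfl).trans (KK_spec t i hm3)).trans hle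
    have h4 := thr_spec σ (KK t i) m h3
    refine le_trans ?_ h4
    unfold pp
    apply hg.monotone
    rw [pow_mul]
    exact Nat.pow_le_pow_left hle _
  refine ⟨strOf (pp g t i) (blk g t σ.1 i) (m - 2 ^ i), ?_, ?_⟩
  · refine Finset.mem_image.2 ⟨(blk g t σ.1 i, m - 2 ^ i), ?_, rfl⟩
    rw [Finset.mem_product]
    exact ⟨hm4, Finset.mem_range.2 hr⟩
  · apply strOf_blk hr
    · rw [hmr]; exact hm1
    · rw [hmr]; exact hlen

lemma sq_tendsto : Tendsto (fun i : ℕ => 2 ^ (i ^ 2)) atTop atTop := by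
  apply tendsto_atTop_mono (f := fun i : ℕ => i) _ tendsto_id
  intro i
  have h1 : i ^ 2 < 2 ^ (i ^ 2) := Nat.lt_two_pow_self
  have h2 : i ≤ i ^ 2 := Nat.le_self_pow (by norm_num) i
  omega

/-- the main transfer theorem -/
theorem transfer (hP : CompClosed @P) {f g : ℕ → ℕ} (hf : StrictMono f) (hg : StrictMono g)
    {r : ℕ} (hgr : ∀ᶠ n in atTop, g n ≤ (fun x => f (2 ^ x))^[r] (f n)) (H : P (RC f)) :
    P (RC g) := by
  refine step6 hP hg (step1 hP hf H) ?_
  refine good_mono hP ?_ (good_mul hP hf (step2 hP hf H) r)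
  filter_upwards [sq_tendsto.eventually hgr] with i hi
  exact Nat.mul_le_mul_left _ hi

/-- number extracted from a block -/
def exN (p v r : ℕ) : ℕ := Nat.ofBits (fun s : Fin p => v.testBit (r * p + s))

def bundle (p : ℕ) (F : ℕ → ℕ) (i : ℕ) : ℕ :=
  Nat.ofBits (fun q : Fin (2 ^ i * p) => (F (2 ^ i + q / p)).testBit (q % p))

lemma exN_bundle {p : ℕ} {F : ℕ → ℕ} {i r : ℕ} (hr : r < 2 ^ i)
    (hF : F (2 ^ i + r) < 2 ^ p) : exN p (bundle p F i) r = F (2 ^ i + r) := by
  unfold exN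
  apply Nat.eq_of_testBit_eq
  intro q
  by_cases hq' : q < p
  · rw [Nat.testBit_ofBits_lt _ _ hq']
    have hlt : r * p + q < 2 ^ i * p := by
      calc r * p + q < r * p + p := Nat.add_lt_add_left hq' _
        _ = (r + 1) * p := by ring
        _ ≤ 2 ^ i * p := Nat.mul_le_mul_right _ hr
    have hd : (r * p + q) / p = r := by
      rw [mul_comm, Nat.mul_add_div (by omega), Nat.div_eq_of_lt hq', add_zero]
    have hm : (r * p + q) % p = q := by
      rw [mul_comm, Nat.mul_add_mod, Nat.mod_eq_of_lt hq']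
    simp only
    unfold bundle
    rw [Nat.testBit_ofBits_lt _ _ hlt]
    simp only [hd, hm]
  · rw [Nat.testBit_ofBits_ge _ _ (not_lt.1 hq')]
    symm
    apply Nat.testBit_lt_two_pow
    exact hF.trans_le (Nat.pow_le_pow_right (by norm_num) (not_lt.1 hq'))

/-- from levels `2 ^ i` to all levels -/
theorem loc_id (hP : CompClosed @P) {f : ℕ → ℕ} (hf : Monotone f)
    (H : Good @P (fun i => 2 ^ i * f (2 ^ (i + 1)))) :
    P (Loc (fun n => 2 ^ f n) (fun n => n)) := by
  classical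
  refine tukey hP (R := Loc (fun i => 2 ^ (2 ^ i * f (2 ^ (i + 1)))) (fun i => 2 ^ i))
    (T := Loc (fun n => 2 ^ f n) (fun n => n))
    (fun F => ⟨fun i => bundle (f (2 ^ (i+1))) F.1 i, fun i => Nat.ofBits_lt_two_pow _⟩)
    (fun φ => ⟨fun n => if n = 0 then ∅ else
      (φ.1 (Nat.log 2 n)).image (fun v => exN (f (2 ^ (Nat.log 2 n + 1))) v
        (n - 2 ^ Nat.log 2 n)), by
      intro n
      beta_reduce
      split_ifs with h
      · simp
      · exact (Finset.card_image_le.trans (φ.2 _)).trans (Nat.pow_log_le_self 2 h)⟩) ?_ H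
  rintro ⟨F, hF⟩ ⟨φ, hφ⟩ hr
  unfold Loc at hr ⊢
  have hlog : Tendsto (Nat.log 2) atTop atTop := by
    rw [tendsto_atTop]
    intro b
    filter_upwards [eventually_ge_atTop (2 ^ b)] with m hm
    exact Nat.le_log_of_pow_le (by norm_num) hm
  filter_upwards [hlog.eventually hr, eventually_ge_atTop 1] with n h1 hn
  have hn0 : n ≠ 0 := by omega
  rw [if_neg hn0, Finset.mem_image]
  refine ⟨_, h1, ?_⟩
  set i := Nat.log 2 n with hi
  have hle : 2 ^ i ≤ n := Nat.pow_log_le_self 2 hn0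
  have hlt : n < 2 ^ (i + 1) := Nat.lt_pow_succ_log_self (by norm_num) n
  have hr : n - 2 ^ i < 2 ^ i := by
    rw [pow_succ] at hlt; omega
  have hmr : 2 ^ i + (n - 2 ^ i) = n := by omega
  rw [exN_bundle hr]
  · rw [hmr]
  · rw [hmr]
    exact (hF n).trans_le (Nat.pow_le_pow_right (by norm_num) (hf hlt.le))

/-- characterization: domination and localization of functions below `2 ^ f` -/
theorem charac (hP : CompClosed @P) {f : ℕ → ℕ} (hf : StrictMono f) :
    P (RC f) ↔ (P Dom ∧ P (Loc (fun n => 2 ^ f n) (fun n => n))) := by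
  constructor
  · intro H
    refine ⟨step1 hP hf H, ?_⟩
    refine loc_id hP hf.monotone ?_
    refine good_mono hP ?_ (good_mul hP hf (step2 hP hf H) 0)
    filter_upwards [eventually_ge_atTop 2] with i hi
    apply Nat.mul_le_mul_left
    rw [CC_zero]
    apply hf.monotone
    apply Nat.pow_le_pow_right (by norm_num)
    nlinarith
  · rintro ⟨H1, H2⟩
    have h1 := loc_shift hP (J := fun j => 2 ^ j) (fun j => by positivity)
      (fun a b hab => Nat.pow_lt_pow_right (by norm_num) hab) H2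
    have h0 : Good @P (fun j => f (2 ^ a2 j)) := by
      refine good_mono hP (c := fun j => f (2 ^ j)) ?_ h1
      filter_upwards [eventually_ge_atTop 4] with j hj
      apply hf.monotone
      apply Nat.pow_le_pow_right (by norm_num)
      have h2 : 2 ≤ Nat.sqrt j := Nat.le_sqrt'.2 (by omega)
      have h3 := Nat.sqrt_le j
      unfold a2
      nlinarith
    exact step6 hP hf H1 (good_mul hP hf h0 0)

end S6

end Pool.Agent.Lib.MP_7d369a_lc
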