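import Pool.Agent.Lib.MP_7d369a_lc.Rel

namespace Pool.Agent.Lib.MP_7d369a_lc

open Filter Cardinal

variable {P : ∀ {α β : Type}, (α → β → Prop) → Prop}

/-! ### Step 2: the basic localization -/

noncomputable section S2

/-- binary expansion of `v` of length `L` -/
def enc (v L : ℕ) : List Bool := List.ofFn (fun i : Fin L => v.testBit i)

lemma length_enc (v L : ℕ) : (enc v L).length = L := by simp [enc]

lemma getElem_enc (v L i : ℕ) (h : i < (enc v L).length) : (enc v L)[i] = v.testBit i := by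
  simp [enc]

def a2 (j : ℕ) : ℕ := 2 * Nat.sqrt j

def u2 (f F : ℕ → ℕ) (j : ℕ) : List Bool :=
  enc (F j) (f (2 ^ a2 j)) ++ List.replicate (f (2 ^ (j + a2 j)) - f (2 ^ a2 j)) false

lemma length_u2 {f : ℕ → ℕ} (hf : StrictMono f) (F : ℕ → ℕ) (j : ℕ) :
    (u2 f F j).length = f (2 ^ (j + a2 j)) := by
  have : f (2 ^ a2 j) ≤ f (2 ^ (j + a2 j)) :=
    hf.monotone (Nat.pow_le_pow_right (by norm_num) (Nat.le_add_left _ _))
  simp only [u2, List.length_append, length_enc, List.length_replicate]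
  omega

lemma u2_ne {f : ℕ → ℕ} (hf : StrictMono f) (F : ℕ → ℕ) (j : ℕ) : u2 f F j ≠ [] := by
  rw [← List.length_pos_iff, length_u2 hf]
  have h1 : 0 < 2 ^ (j + a2 j) := by positivity
  exact h1.trans_le hf.le_apply

lemma a2_mono : Monotone a2 := fun _ _ h => Nat.mul_le_mul_left _ (Nat.sqrt_le_sqrt h)

lemma succ_sq_le (s : ℕ) : (s + 1) ^ 2 ≤ 2 ^ (2 * s) := by
  rw [mul_comm, pow_mul]
  exact Nat.pow_le_pow_left (Nat.lt_two_pow_self) 2

lemma succ_le_of_sqrt (j : ℕ) : j + 1 ≤ 2 ^ a2 j := by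
  have h1 : j < (Nat.sqrt j + 1) ^ 2 := Nat.lt_succ_sqrt' j
  have h2 := succ_sq_le (Nat.sqrt j)
  unfold a2
  omega

lemma sqrt_tendsto : Tendsto Nat.sqrt atTop atTop := by
  rw [tendsto_atTop]
  intro b
  filter_upwards [eventually_ge_atTop (b ^ 2)] with j hj
  exact Nat.le_sqrt'.2 hj

lemma a2_tendsto : Tendsto a2 atTop atTop :=
  tendsto_atTop_mono (fun j => by unfold a2; omega) sqrt_tendsto

lemma exists_code2 {f : ℕ → ℕ} (hf : StrictMono f) (F : ℕ → ℕ) : ∃ ρ : Code f, ∀ x : ℕ → Bool,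
    (∃ᶠ j in atTop, ∃ t : List Bool, t.length = a2 j ∧ Ext (t ++ u2 f F j) x) →
      x ∈ limsupSet ρ.1 := by
  obtain ⟨ρ, h1, h2⟩ := enum (f := f) hf.monotone (S := fun j => lvl (a2 j) (u2 f F j))
    (N := fun j => 2 ^ (a2 j)) (lam := fun j => f (2 ^ j))
    (fun i j hij => Nat.pow_le_pow_right (by norm_num) (a2_mono hij))
    (fun j => Nat.one_le_two_pow) (fun j => card_lvl _ _)
    (fun j s hs => by
      rw [len_lvl hs, length_u2 hf]
      exact (hf.monotone (Nat.pow_le_pow_right (by norm_num) (Nat.le_add_right _ _))).trans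
        (Nat.le_add_left _ _))
    (by
      intro k
      filter_upwards [eventually_ge_atTop ((4 * k) ^ 2)] with j hj
      apply hf.monotone
      have hs : 4 * k ≤ Nat.sqrt j := Nat.le_sqrt'.2 hj
      calc ((j+1) * 2 ^ (a2 j)) ^ k
          ≤ (2 ^ (a2 j) * 2 ^ (a2 j)) ^ k := by
            gcongr
            exact succ_le_of_sqrt j
        _ = 2 ^ (Nat.sqrt j * (4 * k)) := by
            unfold a2
            rw [← pow_add, ← pow_mul]; congr 1; ring
        _ ≤ 2 ^ (Nat.sqrt j * Nat.sqrt j) :=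
            Nat.pow_le_pow_right (by norm_num) (Nat.mul_le_mul_left _ hs)
        _ ≤ 2 ^ j := Nat.pow_le_pow_right (by norm_num) (Nat.sqrt_le j))
  refine ⟨⟨ρ, h1⟩, fun x hx => h2 x ?_⟩
  refine hx.mono ?_
  rintro j ⟨t, ht, htx⟩
  exact ⟨t ++ u2 f F j, mem_lvl ht, htx⟩

/-- decoding -/
def dec (f : ℕ → ℕ) (σ : ℕ → List Bool) (j m : ℕ) : ℕ :=
  Nat.ofBits (fun i : Fin (f (2 ^ a2 j)) => (σ m).getD (a2 j + i) false)

def B2 (f : ℕ → ℕ) (j : ℕ) : ℕ := 2 ^ f (2 ^ a2 j)

def w2 (f : ℕ → ℕ) (σ : Code f) : {φ : ℕ → Finset ℕ // ∀ j, (φ j).card ≤ 2 ^ j} :=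
  ⟨fun j => (Finset.range (2 ^ j)).image (dec f σ.1 j), fun j => by
    refine Finset.card_image_le.trans ?_
    simp⟩

lemma getD_comparable {s t : List Bool} (h : s <+: t ∨ t <+: s) {p : ℕ} (hs : p < s.length)
    (ht : p < t.length) : s.getD p false = t.getD p false := by
  rw [List.getD_eq_getElem _ _ hs, List.getD_eq_getElem _ _ ht]
  rcases h with h | h
  · exact (List.prefix_iff_getElem.1 h).2 p hs
  · exact ((List.prefix_iff_getElem.1 h).2 p ht).symm

theorem step2 (hP : CompClosed @P) {f : ℕ → ℕ} (hf : StrictMono f) (h : P (RC f)) :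
    P (Loc (B2 f) (fun j => 2 ^ j)) := by
  refine tukey hP (fun F => (exists_code2 hf F.1).choose) (w2 f) ?_ h
  rintro ⟨F, hF⟩ σ hσ
  have hz := (exists_code2 hf F).choose_spec
  obtain ⟨c, hc⟩ := capture hf σ.2 (a := a2) (q := fun j => 2 ^ (j + a2 j)) (u := u2 f F)
    a2_tendsto (u2_ne hf F) (by
      filter_upwards [eventually_ge_atTop 2] with j hj
      refine ⟨?_, ?_, length_u2 hf _ _⟩
      · have h1 : a2 j < 2 ^ (a2 j) := Nat.lt_two_pow_self
        exact h1.le.trans (Nat.pow_le_pow_right (by norm_num) (Nat.le_add_left _ _))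
      · have : 2 ^ 2 ≤ 2 ^ (j + a2 j) :=
          Nat.pow_le_pow_right (by norm_num) (by omega)
        simpa using this)
    (fun x hx => hσ (hz x hx))
  unfold Loc
  filter_upwards [hc, sqrt_tendsto.eventually_ge_atTop (thr σ 4 + c + 4),
    eventually_ge_atTop (thr σ 2 + 3)] with j hj hs1 hj2
  simp only [w2, Finset.mem_image, Finset.mem_range]
  set s := Nat.sqrt j with hsdef
  have ha : a2 j = 2 * s := rfl
  have hss : s * s ≤ j := Nat.sqrt_le j
  obtain ⟨m, t, ht, h2, h3, h4⟩ := hj (a2 j + f (2 ^ a2 j)) (thr σ 4 + 2 ^ s + 1)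
    (by
      intro m hm
      by_contra hge
      push Not at hge
      have h3 : m ≤ 2 ^ s := count_bound hf σ (k := 4) (x := 2 ^ a2 j) (y := a2 j)
        ((Nat.le_add_right _ _).trans ((Nat.le_add_right _ _).trans hge))
        (by rw [add_comm]; exact hm) (by
          rw [ha]
          have h1 : 2 * s < 2 ^ (2 * s) := Nat.lt_two_pow_self
          have h4 : (2 ^ s) ^ 4 = 2 ^ (2 * s) * 2 ^ (2 * s) := by
            rw [← pow_mul, ← pow_add]; congr 1; ring
          rw [h4]
          nlinarith) (by omega)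
      omega)
    (by
      rw [ha]
      have h1 : s < 2 ^ s := Nat.lt_two_pow_self
      calc 2 ^ c * (thr σ 4 + 2 ^ s + 1) ≤ 2 ^ c * (2 ^ 2 * 2 ^ s) := by
            apply Nat.mul_le_mul_left; omega
        _ = 2 ^ (c + 2 + s) := by rw [← pow_add, ← pow_add]; congr 1; ring
        _ < 2 ^ (2 * s) := Nat.pow_lt_pow_right (by norm_num) (by omega))
  refine ⟨m, ?_, ?_⟩
  · -- m < 2 ^ j
    by_contra hge
    push Not at hge
    have hj3 : j < 2 ^ j := Nat.lt_two_pow_self
    have h5 : m ≤ 2 ^ (j - 1) := count_bound hf σ (k := 2) (x := 2 ^ (j + a2 j))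
      (y := a2 j + 2 ^ (j + a2 j)) (by omega)
      (by refine h3.trans (le_of_eq ?_); ring)
      (by
        have h1 : a2 j < 2 ^ (a2 j) := Nat.lt_two_pow_self
        have h2 : 2 ^ (a2 j) ≤ 2 ^ (j + a2 j) :=
          Nat.pow_le_pow_right (by norm_num) (Nat.le_add_left _ _)
        have h3 : (2 ^ (j - 1)) ^ 2 = 2 ^ (2 * (j - 1)) := by
          rw [← pow_mul]; congr 1; ring
        have h4 : 2 ^ (j + a2 j + 2) ≤ 2 ^ (2 * (j - 1)) :=
          Nat.pow_le_pow_right (by norm_num) (by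
            rw [ha]
            have : 4 ≤ s := by omega
            have : 2 * s + 4 ≤ s * s := by nlinarith
            omega)
        rw [h3]
        refine le_trans ?_ h4
        rw [pow_add _ (j + a2 j) 2]
        omega) (by norm_num)
    have h6 : 2 ^ (j - 1) < 2 ^ j := Nat.pow_lt_pow_right (by norm_num) (by omega)
    omega
  · -- decoding
    unfold dec
    apply Nat.eq_of_testBit_eq
    intro i
    by_cases hi : i < f (2 ^ a2 j)
    · rw [Nat.testBit_ofBits_lt _ _ hi]
      have hp1 : a2 j + i < (σ.1 m).length := by omega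
      have hmono : f (2 ^ a2 j) ≤ f (2 ^ (j + a2 j)) :=
        hf.monotone (Nat.pow_le_pow_right (by norm_num) (Nat.le_add_left _ _))
      have hp2 : a2 j + i < (t ++ u2 f F j).length := by
        rw [List.length_append, length_u2 hf, ht]
        omega
      show (σ.1 m).getD (a2 j + i) false = _
      rw [getD_comparable h4 hp1 hp2, List.getD_eq_getElem _ _ hp2]
      rw [List.getElem_append_right (by omega)]
      simp only [ht, Nat.add_sub_cancel_left, u2]
      rw [List.getElem_append_left (by rw [length_enc]; exact hi), getElem_enc]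
    · rw [Nat.testBit_ofBits_ge _ _ (not_lt.1 hi)]
      symm
      apply Nat.testBit_lt_two_pow
      exact (hF j).trans_le (Nat.pow_le_pow_right (by norm_num) (not_lt.1 hi))

end S2

end Pool.Agent.Lib.MP_7d369a_lc
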