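import Pool.Agent.Lib.MP_7d369a_lc.Cards

namespace Pool.Agent.Lib.MP_7d369a_lc

open Filter Cardinal

/-- The bounding number `b`: least size of a family of functions `ω → ω` with no single eventual
upper bound. -/
noncomputable def bNum : Cardinal.{0} :=
  sInf {κ | ∃ A : Set (ℕ → ℕ), (¬ ∃ g : ℕ → ℕ, ∀ x ∈ A, ∀ᶠ n in atTop, x n ≤ g n) ∧ #A = κ}

/-- The dominating number `d`: least size of a family `D` of functions `ω → ω` such that every
function is eventually below a member of `D`. -/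
noncomputable def dNum : Cardinal.{0} :=
  sInf {κ | ∃ D : Set (ℕ → ℕ), (∀ x : ℕ → ℕ, ∃ g ∈ D, ∀ᶠ n in atTop, x n ≤ g n) ∧ #D = κ}

/-- The localization cardinal `b^Lc_{B,id}`: least size of a family `A ⊆ ∏ B` such that no single
slalom `φ` with `|φ n| ≤ n` catches every member of `A` at all but finitely many `n`. -/
noncomputable def bLoc (B : ℕ → ℕ) : Cardinal.{0} :=
  sInf {κ | ∃ A : Set (ℕ → ℕ), (∀ x ∈ A, ∀ n, x n < B n) ∧
    (¬ ∃ φ : ℕ → Finset ℕ, (∀ n, (φ n).card ≤ n) ∧ ∀ x ∈ A, ∀ᶠ n in atTop, x n ∈ φ n) ∧ #A = κ}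

/-- The localization cardinal `d^Lc_{B,id}`: least size of a family `D` of slaloms `φ` with
`|φ n| ≤ n` such that every `x ∈ ∏ B` is caught by some member of `D` at all but finitely many
`n`. -/
noncomputable def dLoc (B : ℕ → ℕ) : Cardinal.{0} :=
  sInf {κ | ∃ D : Set (ℕ → Finset ℕ), (∀ φ ∈ D, ∀ n, (φ n).card ≤ n) ∧
    (∀ x : ℕ → ℕ, (∀ n, x n < B n) → ∃ φ ∈ D, ∀ᶠ n in atTop, x n ∈ φ n) ∧ #D = κ}

lemma no_bound : ¬ ∃ g : ℕ → ℕ, ∀ x ∈ (Set.univ : Set (ℕ → ℕ)), ∀ᶠ n in atTop, x n ≤ g n := by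
  rintro ⟨g, hg⟩
  obtain ⟨n, hn⟩ := (hg (fun n => g n + 1) trivial).exists
  omega

theorem le_bNum_iff (κ : Cardinal.{0}) : κ ≤ bNum ↔ Pb κ Dom := by
  constructor
  · intro h A hA
    by_contra hcon
    have h1 : bNum ≤ #A := csInf_le' ⟨A, hcon, rfl⟩
    exact absurd (h.trans h1) (not_le.2 hA)
  · intro h
    apply le_csInf
    · exact ⟨_, Set.univ, no_bound, rfl⟩
    · rintro _ ⟨A, hA, rfl⟩
      by_contra hlt
      push Not at hlt
      exact hA (h A hlt)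

theorem dNum_le_iff (μ : Cardinal.{0}) : dNum ≤ μ ↔ Pd μ Dom := by
  constructor
  · intro h
    have hne : {κ | ∃ D : Set (ℕ → ℕ), (∀ x : ℕ → ℕ, ∃ g ∈ D, ∀ᶠ n in atTop, x n ≤ g n) ∧
        #D = κ}.Nonempty :=
      ⟨_, Set.univ, fun x => ⟨x, trivial, Eventually.of_forall fun _ => le_rfl⟩, rfl⟩
    obtain ⟨D, hD, hD2⟩ := csInf_mem hne
    exact ⟨D, by rw [hD2]; exact h, hD⟩
  · rintro ⟨D, hD, hD2⟩
    exact le_trans (csInf_le' ⟨D, hD2, rfl⟩) hD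

/-- if `n < B n` for all `n`, then no slalom localizes all of `∏ B` -/
lemma no_slalom {B : ℕ → ℕ} (hB : ∀ n, n < B n) :
    ¬ ∃ φ : ℕ → Finset ℕ, (∀ n, (φ n).card ≤ n) ∧
      ∀ x ∈ {x : ℕ → ℕ | ∀ n, x n < B n}, ∀ᶠ n in atTop, x n ∈ φ n := by
  rintro ⟨φ, h1, h2⟩
  have h3 : ∀ n, ∃ v, v < B n ∧ v ∉ φ n := by
    intro n
    by_contra hcon
    push Not at hcon
    have h4 : Finset.range (B n) ⊆ φ n := fun v hv => hcon v (Finset.mem_range.1 hv)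
    have h5 := Finset.card_le_card h4
    rw [Finset.card_range] at h5
    have := h1 n
    have := hB n
    omega
  choose v hv1 hv2 using h3
  obtain ⟨n, hn⟩ := (h2 v hv1).exists
  exact hv2 n hn

theorem le_bLoc_iff {B : ℕ → ℕ} (hB : ∀ n, n < B n) (κ : Cardinal.{0}) :
    κ ≤ bLoc B ↔ Pb κ (Loc B (fun n => n)) := by
  constructor
  · intro h A hA
    by_contra hcon
    have h1 : bLoc B ≤ #(Subtype.val '' A) := by
      refine csInf_le' ⟨_, ?_, ?_, rfl⟩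
      · rintro _ ⟨x, _, rfl⟩
        exact x.2
      · rintro ⟨φ, h2, h3⟩
        exact hcon ⟨⟨φ, h2⟩, fun x hx => h3 _ ⟨x, hx, rfl⟩⟩
    exact absurd (h.trans (h1.trans mk_image_le)) (not_le.2 hA)
  · intro h
    apply le_csInf
    · exact ⟨_, {x : ℕ → ℕ | ∀ n, x n < B n}, fun x hx => hx, no_slalom hB, rfl⟩
    · rintro _ ⟨A, hA, hA2, rfl⟩
      by_contra hlt
      push Not at hlt
      obtain ⟨φ, hφ⟩ := h (Set.range (fun x : A => (⟨x.1, hA x.1 x.2⟩ : {F : ℕ → ℕ // ∀ j, F j < B j})))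
        (mk_range_le.trans_lt hlt)
      exact hA2 ⟨φ.1, φ.2, fun x hx => hφ ⟨x, hA x hx⟩ ⟨⟨x, hx⟩, rfl⟩⟩

theorem dLoc_le_iff {B : ℕ → ℕ} (μ : Cardinal.{0}) :
    dLoc B ≤ μ ↔ Pd μ (Loc B (fun n => n)) := by
  constructor
  · intro h
    have hne : {κ | ∃ D : Set (ℕ → Finset ℕ), (∀ φ ∈ D, ∀ n, (φ n).card ≤ n) ∧
        (∀ x : ℕ → ℕ, (∀ n, x n < B n) → ∃ φ ∈ D, ∀ᶠ n in atTop, x n ∈ φ n) ∧ #D = κ}.Nonempty := by
      refine ⟨_, {φ | ∀ n, (φ n).card ≤ n}, fun φ hφ => hφ, ?_, rfl⟩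
      intro x _
      refine ⟨fun n => if n = 0 then ∅ else {x n}, ?_, ?_⟩
      · intro n
        beta_reduce
        split_ifs with h
        · simp
        · simp; omega
      · filter_upwards [eventually_ge_atTop 1] with n hn
        rw [if_neg (by omega)]
        simp
    obtain ⟨D, hD, hD2, hD3⟩ := csInf_mem hne
    refine ⟨Set.range (fun φ : D => (⟨φ.1, hD φ.1 φ.2⟩ : {φ : ℕ → Finset ℕ // ∀ j, (φ j).card ≤ j})),
      ?_, ?_⟩
    · refine mk_range_le.trans ?_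
      rw [hD3]; exact h
    · intro x
      obtain ⟨φ, hφ, hφ2⟩ := hD2 x.1 x.2
      exact ⟨⟨φ, hD φ hφ⟩, ⟨⟨φ, hφ⟩, rfl⟩, hφ2⟩
  · rintro ⟨D, hD, hD2⟩
    refine le_trans ?_ hD
    refine le_trans ?_ (mk_image_le (f := fun φ : {φ : ℕ → Finset ℕ // ∀ j, (φ j).card ≤ j} => φ.1)
      (s := D))
    refine csInf_le' ⟨_, ?_, ?_, rfl⟩
    · rintro _ ⟨φ, _, rfl⟩
      exact φ.2
    · intro x hx
      obtain ⟨φ, hφ, hφ2⟩ := hD2 ⟨x, hx⟩
      exact ⟨φ.1, ⟨φ, hφ, rfl⟩, hφ2⟩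

lemma inf_of_Pd_Dom {μ : Cardinal.{0}} (h : Pd μ Dom) : ℵ₀ ≤ μ := by
  by_contra hlt
  push Not at hlt
  obtain ⟨D, hD, hD2⟩ := h
  exact not_Pf_Dom ⟨D, (Cardinal.lt_aleph0_iff_set_finite.1 (hD.trans_lt hlt)), hD2⟩

theorem characterization {f : ℕ → ℕ} (hf : StrictMono f) :
    addIdeal (Yorioka f) = min bNum (bLoc (fun n => 2 ^ f n)) ∧
      cofIdeal (Yorioka f) = max dNum (dLoc (fun n => 2 ^ f n)) := by
  have hB : ∀ n, n < 2 ^ f n := fun n => hf.le_apply.trans_lt Nat.lt_two_pow_self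
  constructor
  · apply eq_of_forall_le_iff
    intro κ
    rw [le_min_iff, le_add_iff hf, le_bNum_iff, le_bLoc_iff hB]
    exact charac (closed_Pb κ) hf
  · apply eq_of_forall_ge_iff
    intro μ
    rw [max_le_iff, cof_le_iff, dNum_le_iff, dLoc_le_iff]
    constructor
    · intro h
      exact (charac (closed_Pd (inf_of_Pd hf h)) hf).1 h
    · intro h
      exact (charac (closed_Pd (inf_of_Pd_Dom h.1)) hf).2 h

end Pool.Agent.Lib.MP_7d369a_lc
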