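import Pool.Agent.Lib.MP_7d369a_lc.LocBase

namespace Pool.Agent.Lib.MP_7d369a_lc

open Filter Cardinal

variable {P : ∀ {α β : Type}, (α → β → Prop) → Prop}

/-- monotonicity of localization -/
theorem loc_mono (hP : CompClosed @P) {B h B' h' : ℕ → ℕ} (hB0 : ∀ j, 0 < B j)
    (hB : ∀ᶠ j in atTop, B' j ≤ B j) (hh : ∀ᶠ j in atTop, h j ≤ h' j)
    (H : P (Loc B h)) : P (Loc B' h') := by
  classical
  refine tukey hP (R := Loc B h) (T := Loc B' h')
    (fun F => ⟨fun j => if F.1 j < B j then F.1 j else 0, by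
      intro j
      beta_reduce
      split_ifs with h
      · exact h
      · exact hB0 j⟩)
    (fun φ => ⟨fun j => if (φ.1 j).card ≤ h' j then φ.1 j else ∅, by
      intro j
      beta_reduce
      split_ifs with h
      · exact h
      · simp⟩) ?_ H
  · rintro ⟨F, hF⟩ ⟨φ, hφ⟩ hr
    unfold Loc at hr ⊢
    filter_upwards [hr, hB, hh] with j h1 h2 h3
    rw [if_pos ((hF j).trans_le h2)] at h1
    rw [if_pos ((hφ j).trans h3)]
    exact h1

/-- reindexing -/
theorem loc_shift (hP : CompClosed @P) {B h J : ℕ → ℕ} (hB0 : ∀ j, 0 < B j)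
    (hJ : StrictMono J) (H : P (Loc B h)) :
    P (Loc (fun i => B (J i)) (fun i => h (J i))) := by
  classical
  have hinv : ∀ i, Function.invFun J (J i) = i := Function.leftInverse_invFun hJ.injective
  refine tukey hP (R := Loc B h) (T := Loc (fun i => B (J i)) (fun i => h (J i)))
    (fun F => ⟨fun j => if J (Function.invFun J j) = j then
      F.1 (Function.invFun J j) else 0, by
      intro j
      beta_reduce
      split_ifs with h
      · have := F.2 (Function.invFun J j)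
        rwa [h] at this
      · exact hB0 j⟩)
    (fun φ => ⟨fun i => φ.1 (J i), fun i => φ.2 (J i)⟩) ?_ H
  · rintro ⟨F, hF⟩ ⟨φ, hφ⟩ hr
    unfold Loc at hr ⊢
    filter_upwards [hJ.tendsto_atTop.eventually hr] with i h1
    rw [hinv, if_pos rfl] at h1
    exact h1

/-- rank of `x` in the finite set `A` -/
def rk (A : Finset ℕ) (x : ℕ) : ℕ := (A.filter (fun y => y < x)).card

lemma rk_lt {A : Finset ℕ} {x : ℕ} (h : x ∈ A) : rk A x < A.card := by
  apply Finset.card_lt_card
  rw [Finset.ssubset_iff_of_subset (Finset.filter_subset _ _)]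
  exact ⟨x, h, by simp⟩

lemma rk_inj {A : Finset ℕ} {x y : ℕ} (hx : x ∈ A) (hy : y ∈ A) (h : rk A x = rk A y) :
    x = y := by
  rcases lt_trichotomy x y with h1 | h1 | h1
  · exfalso
    have : rk A x < rk A y := by
      apply Finset.card_lt_card
      rw [Finset.ssubset_iff_of_subset]
      · exact ⟨x, by simp [hx, h1], by simp⟩
      · intro z hz
        simp only [Finset.mem_filter] at hz ⊢
        exact ⟨hz.1, hz.2.trans h1⟩
    omega
  · exact h1
  · exfalso
    have : rk A y < rk A x := by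
      apply Finset.card_lt_card
      rw [Finset.ssubset_iff_of_subset]
      · exact ⟨y, by simp [hy, h1], by simp⟩
      · intro z hz
        simp only [Finset.mem_filter] at hz ⊢
        exact ⟨hz.1, hz.2.trans h1⟩
    omega

/-- composition of localizations -/
theorem loc_comp (hP : CompClosed @P) {B h h' : ℕ → ℕ} (hh : ∀ j, 0 < h j)
    (H1 : P (Loc B h)) (H2 : P (Loc h h')) : P (Loc B h') := by
  classical
  refine comp hP (Loc B h) (Loc h h') (Loc B h') (fun F => F)
    (fun φ F => ⟨fun j => if F.1 j ∈ φ.1 j then rk (φ.1 j) (F.1 j) else 0, by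
      intro j
      beta_reduce
      split_ifs with hm
      · exact (rk_lt hm).trans_le (φ.2 j)
      · exact hh j⟩)
    (fun φ ψ => ⟨fun j => (φ.1 j).filter (fun x => rk (φ.1 j) x ∈ ψ.1 j), by
      intro j
      refine le_trans ?_ (ψ.2 j)
      apply Finset.card_le_card_of_injOn (rk (φ.1 j))
      · intro x hx
        exact (Finset.mem_filter.1 hx).2
      · intro x hx y hy hxy
        exact rk_inj (Finset.mem_filter.1 hx).1 (Finset.mem_filter.1 hy).1 hxy⟩)
    ?_ H1 H2
  · rintro ⟨F, hF⟩ ⟨φ, hφ⟩ ⟨ψ, hψ⟩ h1 h2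
    unfold Loc at h1 h2 ⊢
    filter_upwards [h1, h2] with j h3 h4
    rw [if_pos h3] at h4
    exact Finset.mem_filter.2 ⟨h3, h4⟩

/-- `c` is good: all functions bounded by `2 ^ c i` are localized by slaloms of width `2 ^ i` -/
def Good (P : ∀ {α β : Type}, (α → β → Prop) → Prop) (c : ℕ → ℕ) : Prop :=
  P (Loc (fun i => 2 ^ c i) (fun i => 2 ^ i))

lemma good_mono (hP : CompClosed @P) {c c' : ℕ → ℕ} (h : ∀ᶠ i in atTop, c' i ≤ c i)
    (H : Good @P c) : Good @P c' :=
  loc_mono hP (fun j => by positivity)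
    (h.mono fun i hi => Nat.pow_le_pow_right (by norm_num) hi)
    (Eventually.of_forall fun _ => le_rfl) H

lemma good_step (hP : CompClosed @P) {f J c : ℕ → ℕ} (h0 : Good @P (fun j => f (2 ^ a2 j)))
    (hJ : StrictMono J) (hJc : ∀ᶠ i in atTop, J i ≤ c i) (H : Good @P c) :
    Good @P (fun i => f (2 ^ a2 (J i))) := by
  have h1 := loc_shift hP (B := fun j => 2 ^ f (2 ^ a2 j)) (h := fun j => 2 ^ j) (J := J)
    (fun j => by positivity) hJ h0
  exact loc_comp hP (fun j => by positivity) h1 (good_mono hP hJc H)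

lemma good_step' (hP : CompClosed @P) {f c : ℕ → ℕ} (h0 : Good @P (fun j => f (2 ^ a2 j)))
    (hc : Monotone c) (hc2 : ∀ᶠ i in atTop, 2 * i ≤ c i) (H : Good @P c) :
    Good @P (fun i => f (2 ^ a2 (i + c i / 2))) := by
  refine good_step hP h0 ?_ ?_ H
  · intro a b hab
    have := Nat.div_le_div_right (c := 2) (hc hab.le)
    show a + c a / 2 < b + c b / 2
    omega
  · filter_upwards [hc2] with i hi
    omega

lemma sq_le_two_pow {s : ℕ} (h : 8 ≤ s) : 2 * (s + 1) ^ 2 ≤ 2 ^ s := by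
  induction s, h using Nat.le_induction with
  | base => norm_num
  | succ n hn ih =>
    have : 2 * (n + 1 + 1) ^ 2 ≤ 2 * (2 * (n + 1) ^ 2) := by nlinarith
    calc 2 * (n + 1 + 1) ^ 2 ≤ 2 * (2 * (n + 1) ^ 2) := this
      _ ≤ 2 * 2 ^ n := Nat.mul_le_mul_left _ ih
      _ = 2 ^ (n+1) := by ring

lemma good_sq (hP : CompClosed @P) {f c : ℕ → ℕ} (hf : StrictMono f)
    (h0 : Good @P (fun j => f (2 ^ a2 j)))
    (hc : Monotone c) (hc2 : ∀ᶠ i in atTop, 2 * i ≤ c i) (H : Good @P c) :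
    Good @P (fun i => c i ^ 2) := by
  refine good_mono hP ?_ (good_step' hP h0 hc hc2 H)
  filter_upwards [hc2, eventually_ge_atTop (8 ^ 2)] with i hi hi2
  have h1 : 8 ≤ Nat.sqrt (i + c i / 2) := Nat.le_sqrt'.2 (by omega)
  set s := Nat.sqrt (i + c i / 2) with hs
  have h2 : i + c i / 2 < (s + 1) ^ 2 := Nat.lt_succ_sqrt' _
  have h3 := sq_le_two_pow h1
  have h4 : c i ≤ 2 ^ s := by omega
  calc c i ^ 2 ≤ (2 ^ s) ^ 2 := Nat.pow_le_pow_left h4 2
    _ = 2 ^ a2 (i + c i / 2) := by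
      unfold a2; rw [← hs, ← pow_mul]; congr 1; ring
    _ ≤ f (2 ^ a2 (i + c i / 2)) := hf.le_apply

/-- the iterated jump sequence -/
def CC (f : ℕ → ℕ) (r i : ℕ) : ℕ := (fun x => f (2 ^ x))^[r] (f (2 ^ (i ^ 2)))

lemma CC_zero (f : ℕ → ℕ) (i : ℕ) : CC f 0 i = f (2 ^ (i ^ 2)) := rfl

lemma CC_succ (f : ℕ → ℕ) (r i : ℕ) : CC f (r+1) i = f (2 ^ CC f r i) := by
  unfold CC
  rw [Function.iterate_succ_apply']

lemma CC_mono {f : ℕ → ℕ} (hf : StrictMono f) (r : ℕ) : Monotone (CC f r) := by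
  induction r with
  | zero =>
    intro a b hab
    rw [CC_zero, CC_zero]
    exact hf.monotone (Nat.pow_le_pow_right (by norm_num) (Nat.pow_le_pow_left hab 2))
  | succ r ih =>
    intro a b hab
    rw [CC_succ, CC_succ]
    exact hf.monotone (Nat.pow_le_pow_right (by norm_num) (ih hab))

lemma two_pow_le_CC {f : ℕ → ℕ} (hf : StrictMono f) (r i : ℕ) : 2 ^ i ≤ CC f r i := by
  induction r with
  | zero =>
    rw [CC_zero]
    refine le_trans ?_ hf.le_apply
    exact Nat.pow_le_pow_right (by norm_num) (Nat.le_self_pow (by norm_num) i)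
  | succ r ih =>
    rw [CC_succ]
    refine le_trans ?_ hf.le_apply
    exact ih.trans (Nat.lt_two_pow_self).le

lemma two_mul_le_CC {f : ℕ → ℕ} (hf : StrictMono f) (r : ℕ) :
    ∀ᶠ i in atTop, 2 * i ≤ CC f r i := by
  filter_upwards [eventually_ge_atTop 8] with i hi
  have h1 := two_pow_le_CC hf r i
  have h2 := sq_le_two_pow hi
  nlinarith

theorem good_CC0 (hP : CompClosed @P) {f : ℕ → ℕ} (hf : StrictMono f)
    (h0 : Good @P (fun j => f (2 ^ a2 j))) : Good @P (CC f 0) := by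
  have hc0 : Monotone (fun j => f (2 ^ a2 j)) := fun a b hab =>
    hf.monotone (Nat.pow_le_pow_right (by norm_num) (a2_mono hab))
  have hc2 : ∀ᶠ i in atTop, 2 * i ≤ f (2 ^ a2 i) := by
    filter_upwards [sqrt_tendsto.eventually_ge_atTop 8] with i hi
    have h2 : i < (Nat.sqrt i + 1) ^ 2 := Nat.lt_succ_sqrt' _
    have h3 := sq_le_two_pow hi
    have h4 : 2 ^ Nat.sqrt i ≤ 2 ^ a2 i :=
      Nat.pow_le_pow_right (by norm_num) (by unfold a2; omega)
    have h5 : 2 ^ a2 i ≤ f (2 ^ a2 i) := hf.le_apply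
    omega
  have h1 := good_sq hP hf h0 hc0 hc2 h0
  have h2 := good_sq hP hf h0 (c := fun i => f (2 ^ a2 i) ^ 2)
    (fun a b hab => Nat.pow_le_pow_left (hc0 hab) 2)
    (hc2.mono fun i hi => hi.trans (Nat.le_self_pow (by norm_num) _)) h1
  have h3 := good_step hP h0 (J := fun i => i ^ 4) (c := fun i => (f (2 ^ a2 i) ^ 2) ^ 2)
    (fun a b hab => Nat.pow_lt_pow_left hab (by norm_num))
    (hc2.mono fun i hi => by
      have : i ≤ f (2 ^ a2 i) := by omega
      calc i ^ 4 ≤ (f (2 ^ a2 i)) ^ 4 := Nat.pow_le_pow_left this 4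
        _ = _ := by rw [← pow_mul]) h2
  refine good_mono hP (Eventually.of_forall fun i => ?_) h3
  rw [CC_zero]
  apply hf.monotone
  apply Nat.pow_le_pow_right (by norm_num)
  unfold a2
  have : Nat.sqrt (i ^ 4) = i ^ 2 := by
    have e : i ^ 4 = (i ^ 2) ^ 2 := by rw [← pow_mul]
    rw [e]
    exact Nat.sqrt_eq' _
  rw [this]
  omega

theorem good_CC (hP : CompClosed @P) {f : ℕ → ℕ} (hf : StrictMono f)
    (h0 : Good @P (fun j => f (2 ^ a2 j))) (r : ℕ) : Good @P (CC f r) := by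
  induction r with
  | zero => exact good_CC0 hP hf h0
  | succ r ih =>
    have h1 := good_sq hP hf h0 (CC_mono hf r) (two_mul_le_CC hf r) ih
    have m1 : Monotone (fun i => CC f r i ^ 2) := fun a b hab =>
      Nat.pow_le_pow_left (CC_mono hf r hab) 2
    have t1 : ∀ᶠ i in atTop, 2 * i ≤ CC f r i ^ 2 :=
      (two_mul_le_CC hf r).mono fun i hi => hi.trans (Nat.le_self_pow (by norm_num) _)
    have h2 := good_sq hP hf h0 m1 t1 h1
    have m2 : Monotone (fun i => (CC f r i ^ 2) ^ 2) := fun a b hab =>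
      Nat.pow_le_pow_left (m1 hab) 2
    have t2 : ∀ᶠ i in atTop, 2 * i ≤ (CC f r i ^ 2) ^ 2 :=
      t1.mono fun i hi => hi.trans (Nat.le_self_pow (by norm_num) _)
    refine good_mono hP ?_ (good_step' hP h0 m2 t2 h2)
    filter_upwards [eventually_ge_atTop 1] with i hi
    rw [CC_succ]
    apply hf.monotone
    apply Nat.pow_le_pow_right (by norm_num)
    have h3 : 2 ≤ CC f r i := by
      have h4 := two_pow_le_CC hf r i
      have h5 : 2 ^ 1 ≤ 2 ^ i := Nat.pow_le_pow_right (by norm_num) hi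
      omega
    have h4 : CC f r i ≤ Nat.sqrt (i + (CC f r i ^ 2) ^ 2 / 2) := by
      rw [Nat.le_sqrt']
      have h5 : CC f r i ^ 2 ≤ (CC f r i ^ 2) ^ 2 / 2 := by
        rw [Nat.le_div_iff_mul_le (by norm_num)]
        have h6 : 2 ≤ CC f r i ^ 2 := by nlinarith
        rw [sq (CC f r i ^ 2)]
        exact Nat.mul_le_mul_left _ h6
      omega
    unfold a2
    omega

theorem good_mul (hP : CompClosed @P) {f : ℕ → ℕ} (hf : StrictMono f)
    (h0 : Good @P (fun j => f (2 ^ a2 j))) (r : ℕ) : Good @P (fun i => 2 ^ i * CC f r i) := by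
  refine good_mono hP (Eventually.of_forall fun i => ?_)
    (good_sq hP hf h0 (CC_mono hf r) (two_mul_le_CC hf r) (good_CC hP hf h0 r))
  rw [sq]
  exact Nat.mul_le_mul_right _ (two_pow_le_CC hf r i)

end Pool.Agent.Lib.MP_7d369a_lc
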