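import Pool.Agent.Lib.MP_7d369a_lc.Cards

namespace Pool.Agent.Lib.MP_7d369a_lc

open Filter Cardinal MeasureTheory
open scoped ENNReal

/-- The standard (fair coin, Lebesgue) product probability measure on `2^ω`. -/
noncomputable def coin : Measure (ℕ → Bool) :=
  Measure.infinitePi (fun _ : ℕ => (PMF.uniformOfFintype Bool).toMeasure)

/-- The ideal `N` of Lebesgue null subsets of `2^ω` (`coin` of an arbitrary set is its outer
measure). -/
def NullIdeal : Set (Set (ℕ → Bool)) := {X | coin X = 0}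

instance : IsProbabilityMeasure coin := by unfold coin; infer_instance

def cyl (s : List Bool) : Set (ℕ → Bool) := {x | Ext s x}

lemma cyl_eq (s : List Bool) :
    cyl s = Set.pi (Finset.range s.length : Set ℕ) (fun i => {s.getD i false}) := by
  ext x
  simp only [cyl, Set.mem_ofPred_eq, Set.mem_pi, Finset.coe_range, Set.mem_Iio,
    Set.mem_singleton_iff, Ext]
  constructor
  · intro h i hi
    rw [List.getD_eq_getElem _ _ hi, h i hi]
  · intro h i hi
    rw [h i hi, List.getD_eq_getElem _ _ hi]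

lemma coin_cyl (s : List Bool) : coin (cyl s) = (2:ℝ≥0∞)⁻¹ ^ s.length := by
  rw [cyl_eq, coin, Measure.infinitePi_pi]
  · simp
  · intro i _
    exact MeasurableSet.singleton _

lemma measurable_cyl (s : List Bool) : MeasurableSet (cyl s) := by
  rw [cyl_eq]
  exact MeasurableSet.pi (Finset.countable_toSet _) (fun i _ => MeasurableSet.singleton _)

lemma Ext_res (x : ℕ → Bool) (n : ℕ) : Ext (List.ofFn (fun i : Fin n => x i)) x := by
  intro i hi
  simp

lemma cyl_nhds {U : Set (ℕ → Bool)} (hU : IsOpen U) {x : ℕ → Bool} (hx : x ∈ U) :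
    ∃ n, cyl (List.ofFn (fun i : Fin n => x i)) ⊆ U := by
  rw [isOpen_pi_iff] at hU
  obtain ⟨I, u, hu1, hu2⟩ := hU x hx
  refine ⟨I.sup id + 1, fun y hy => hu2 ?_⟩
  rw [Set.mem_pi]
  intro i hi
  have h1 : i < I.sup id + 1 := Nat.lt_succ_of_le (Finset.le_sup (f := id) hi)
  have h2 := hy i (by simpa using h1)
  simp only [List.getElem_ofFn] at h2
  rw [← h2]
  exact (hu1 i hi).2

/-- every null set is covered by cylinders of small total measure -/
lemma exists_cover {X : Set (ℕ → Bool)} (hX : X ∈ NullIdeal) {ε : ℝ≥0∞} (hε : ε ≠ 0) :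
    ∃ S : Set (List Bool), ∑' s : S, (2:ℝ≥0∞)⁻¹ ^ s.1.length ≤ ε ∧
      ∀ x ∈ X, ∃ s ∈ S, Ext s x := by
  obtain ⟨U, hXU, hU, hμ⟩ := X.exists_isOpen_le_add coin hε
  have hX0 : coin X = 0 := hX
  rw [hX0, zero_add] at hμ
  let S : Set (List Bool) := {s | cyl s ⊆ U ∧ ∀ t, t <+: s → cyl t ⊆ U → t = s}
  have hdisj : Pairwise (Function.onFun Disjoint (fun s : S => cyl s.1)) := by
    intro s t hst
    rw [Function.onFun, Set.disjoint_left]
    intro x hxs hxt
    apply hst
    apply Subtype.ext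
    rcases le_total s.1.length t.1.length with h | h
    · exact t.2.2 s.1 (pre_of_ext hxs hxt h) s.2.1
    · exact (s.2.2 t.1 (pre_of_ext hxt hxs h) t.2.1).symm
  refine ⟨S, ?_, ?_⟩
  · have h1 : coin (⋃ s : S, cyl s.1) = ∑' s : S, coin (cyl s.1) :=
      measure_iUnion hdisj (fun s => measurable_cyl _)
    have h2 : (⋃ s : S, cyl s.1) ⊆ U := Set.iUnion_subset fun s => s.2.1
    calc ∑' s : S, (2:ℝ≥0∞)⁻¹ ^ s.1.length = ∑' s : S, coin (cyl s.1) :=
          tsum_congr fun s => (coin_cyl _).symm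
      _ = coin (⋃ s : S, cyl s.1) := h1.symm
      _ ≤ coin U := measure_mono h2
      _ ≤ ε := hμ
  · intro x hx
    classical
    have hex := cyl_nhds hU (hXU hx)
    refine ⟨List.ofFn (fun i : Fin (Nat.find hex) => x i), ⟨Nat.find_spec hex, ?_⟩, Ext_res _ _⟩
    intro t ht htU
    have htx : Ext t x := ext_of_pre ht (Ext_res x _)
    have hteq : t = List.ofFn (fun i : Fin t.length => x i) := by
      apply List.ext_getElem
      · simp
      · intro i h1 h2
        simp only [List.getElem_ofFn]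
        exact htx i h1
    have h1 : Nat.find hex ≤ t.length := Nat.find_min' hex (by rw [← hteq]; exact htU)
    have h2 : t.length ≤ Nat.find hex := by simpa using ht.length_le
    exact ht.eq_of_length (by simp only [List.length_ofFn]; omega)

/-- Borel-Cantelli for blocks of cylinders -/
lemma null_of_blocks {T : ℕ → Set (List Bool)} {w : ℕ → ℝ≥0∞} (hw : ∑' j, w j ≠ ∞)
    (hT : ∀ j, coin {x | ∃ s ∈ T j, Ext s x} ≤ w j) :
    {x | ∃ᶠ j in atTop, ∃ s ∈ T j, Ext s x} ∈ NullIdeal := by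
  have : coin {x | ∃ᶠ j in atTop, ∃ s ∈ T j, Ext s x} = 0 := by
    apply measure_setOfPred_frequently_eq_zero
    exact ne_top_of_le_ne_top hw (ENNReal.tsum_le_tsum hT)
  exact this

lemma coin_finset_le (T : Finset (List Bool)) :
    coin {x | ∃ s ∈ T, Ext s x} ≤ ∑ s ∈ T, (2:ℝ≥0∞)⁻¹ ^ s.length := by
  have : {x | ∃ s ∈ T, Ext s x} = ⋃ s ∈ T, cyl s := by
    ext x; simp [cyl]
  rw [this]
  refine (measure_biUnion_finset_le _ _).trans (le_of_eq ?_)
  exact Finset.sum_congr rfl fun s _ => coin_cyl s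

end Pool.Agent.Lib.MP_7d369a_lc
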