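import Pool.Agent.Lib.MP_7d369a_lc.NullMain

namespace Pool.Agent.Lib.MP_7d369a_lc

open Filter Cardinal MeasureTheory
open scoped ENNReal

lemma null_singleton (x : ℕ → Bool) : {x} ∈ NullIdeal := by
  have h : ∀ n : ℕ, coin {x} ≤ (2:ℝ≥0∞)⁻¹ ^ n := by
    intro n
    have h1 : ({x} : Set (ℕ → Bool)) ⊆ cyl (List.ofFn (fun i : Fin n => x i)) := by
      intro y hy
      rw [Set.mem_singleton_iff] at hy
      subst hy
      exact Ext_res y n
    refine (measure_mono h1).trans ?_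
    rw [coin_cyl]
    simp
  have ht : Tendsto (fun n : ℕ => (2:ℝ≥0∞)⁻¹ ^ n) atTop (nhds 0) :=
    ENNReal.tendsto_pow_atTop_nhds_zero_of_lt_one (by simp)
  have : coin {x} ≤ 0 := ge_of_tendsto' ht h
  exact le_antisymm this zero_le

lemma null_univ : Set.univ ∉ NullIdeal := by
  intro h
  have h1 : coin Set.univ = 0 := h
  rw [measure_univ] at h1
  exact one_ne_zero h1

lemma null_sUnion : ⋃₀ NullIdeal = Set.univ := by
  ext x
  simp only [Set.mem_sUnion, Set.mem_univ, iff_true]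
  exact ⟨{x}, null_singleton x, rfl⟩

lemma not_Pf_RN : ¬ Pf RN := fun h =>
  not_Pf_RC strictMono_id (null_to_yor closed_Pf strictMono_id h)

theorem le_add_null_iff (κ : Cardinal.{0}) : κ ≤ addIdeal NullIdeal ↔ Pb κ RN := by
  constructor
  · intro h A hA
    by_contra hcon
    push Not at hcon
    have hmem : ⋃₀ ((fun X : {X : Set (ℕ → Bool) // X ∈ NullIdeal} => X.1) '' A) ∉ NullIdeal := by
      intro hin
      obtain ⟨σ, hσ, hn⟩ := hcon ⟨_, hin⟩
      exact hn (fun x hx => ⟨_, ⟨σ, hσ, rfl⟩, hx⟩)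
    have h1 : addIdeal NullIdeal ≤
        #((fun X : {X : Set (ℕ → Bool) // X ∈ NullIdeal} => X.1) '' A) := by
      apply csInf_le'
      refine ⟨_, ?_, hmem, rfl⟩
      rintro _ ⟨σ, _, rfl⟩
      exact σ.2
    exact absurd (h.trans (h1.trans mk_image_le)) (not_le.2 hA)
  · intro h
    apply le_csInf
    · exact ⟨_, NullIdeal, le_rfl, by rw [null_sUnion]; exact null_univ, rfl⟩
    · rintro _ ⟨F, hF, hF2, rfl⟩
      by_contra hlt
      push Not at hlt
      apply hF2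
      obtain ⟨Y, hY⟩ := h (Set.range (fun X : F => (⟨X.1, hF X.2⟩ : {X // X ∈ NullIdeal})))
        (mk_range_le.trans_lt hlt)
      have h2 : coin Y.1 = 0 := Y.2
      have h1 : ⋃₀ F ⊆ Y.1 := by
        rintro x ⟨X, hX, hx⟩
        exact hY ⟨X, hF hX⟩ ⟨⟨X, hX⟩, rfl⟩ hx
      exact measure_mono_null h1 h2

theorem cof_null_le_iff (μ : Cardinal.{0}) : cofIdeal NullIdeal ≤ μ ↔ Pd μ RN := by
  constructor
  · intro h
    have hne : {κ | ∃ B : Set (Set (ℕ → Bool)), B ⊆ NullIdeal ∧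
        (∀ X ∈ NullIdeal, ∃ Y ∈ B, X ⊆ Y) ∧ #B = κ}.Nonempty :=
      ⟨_, NullIdeal, le_rfl, fun X hX => ⟨X, hX, le_rfl⟩, rfl⟩
    obtain ⟨B, hB, hB2, hB3⟩ := csInf_mem hne
    refine ⟨Set.range (fun X : B => (⟨X.1, hB X.2⟩ : {X // X ∈ NullIdeal})), ?_, ?_⟩
    · refine mk_range_le.trans ?_
      rw [hB3]
      exact h
    · intro X
      obtain ⟨Y, hY, hY2⟩ := hB2 _ X.2
      exact ⟨⟨Y, hB hY⟩, ⟨⟨Y, hY⟩, rfl⟩, hY2⟩
  · rintro ⟨D, hD, hD2⟩
    refine le_trans ?_ hD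
    refine le_trans ?_ (mk_image_le (f := fun X : {X : Set (ℕ → Bool) // X ∈ NullIdeal} => X.1)
      (s := D))
    apply csInf_le'
    refine ⟨_, ?_, ?_, rfl⟩
    · rintro _ ⟨σ, _, rfl⟩
      exact σ.2
    · intro X hX
      obtain ⟨τ, hτ, hτ2⟩ := hD2 ⟨X, hX⟩
      exact ⟨_, ⟨τ, hτ, rfl⟩, hτ2⟩

lemma inf_of_Pd_RN {μ : Cardinal.{0}} (h : Pd μ RN) : ℵ₀ ≤ μ := by
  by_contra hlt
  push Not at hlt
  obtain ⟨D, hD, hD2⟩ := h
  exact not_Pf_RN ⟨D, (Cardinal.lt_aleph0_iff_set_finite.1 (hD.trans_lt hlt)), hD2⟩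

theorem add_null_le {f : ℕ → ℕ} (hf : StrictMono f) :
    addIdeal NullIdeal ≤ addIdeal (Yorioka f) := by
  rw [le_add_iff hf]
  exact null_to_yor (closed_Pb _) hf ((le_add_null_iff _).1 le_rfl)

theorem cof_le_null {f : ℕ → ℕ} (hf : StrictMono f) :
    cofIdeal (Yorioka f) ≤ cofIdeal NullIdeal := by
  rw [cof_le_iff]
  have h := (cof_null_le_iff _).1 le_rfl
  exact null_to_yor (closed_Pd (inf_of_Pd_RN h)) hf h

/-- `add(N)` is the least of the cardinals `add(I_f)`. -/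
theorem add_null_isLeast :
    IsLeast {κ | ∃ f : ℕ → ℕ, StrictMono f ∧ addIdeal (Yorioka f) = κ} (addIdeal NullIdeal) := by
  have hne : {κ | ∃ f : ℕ → ℕ, StrictMono f ∧ addIdeal (Yorioka f) = κ}.Nonempty :=
    ⟨_, id, strictMono_id, rfl⟩
  have hmem := csInf_mem hne
  set κ0 := sInf {κ | ∃ f : ℕ → ℕ, StrictMono f ∧ addIdeal (Yorioka f) = κ} with hκ0
  have hle : κ0 ≤ addIdeal NullIdeal := by
    rw [le_add_null_iff]
    apply all_yor_to_null (closed_Pb _)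
    intro f hf
    rw [← le_add_iff hf]
    exact csInf_le' ⟨f, hf, rfl⟩
  have hge : addIdeal NullIdeal ≤ κ0 := by
    obtain ⟨f, hf, hfe⟩ := hmem
    rw [← hfe]
    exact add_null_le hf
  have heq : addIdeal NullIdeal = κ0 := le_antisymm hge hle
  refine ⟨?_, ?_⟩
  · rw [heq]; exact hmem
  · rintro _ ⟨f, hf, rfl⟩
    exact add_null_le hf

/-- `cof(N)` is the supremum of the cardinals `cof(I_f)`. -/
theorem cof_null_isLUB :
    IsLUB {κ | ∃ f : ℕ → ℕ, StrictMono f ∧ cofIdeal (Yorioka f) = κ} (cofIdeal NullIdeal) := by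
  refine ⟨?_, ?_⟩
  · rintro _ ⟨f, hf, rfl⟩
    exact cof_le_null hf
  · intro μ hμ
    rw [cof_null_le_iff]
    have h1 : ∀ f : ℕ → ℕ, StrictMono f → Pd μ (RC f) := fun f hf => by
      rw [← cof_le_iff]
      exact hμ ⟨f, hf, rfl⟩
    exact all_yor_to_null (closed_Pd (inf_of_Pd strictMono_id (h1 id strictMono_id))) h1

theorem mono_id {f : ℕ → ℕ} (hf : StrictMono f) :
    addIdeal (Yorioka f) ≤ addIdeal (Yorioka id) ∧ cofIdeal (Yorioka id) ≤ cofIdeal (Yorioka f) :=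
  compare hf strictMono_id (r := 0) (Eventually.of_forall fun n => hf.le_apply)

theorem univ_add_iff :
    (∀ f : ℕ → ℕ, StrictMono f → addIdeal (Yorioka f) = addIdeal (Yorioka id)) ↔
      addIdeal (Yorioka id) = addIdeal NullIdeal := by
  constructor
  · intro h
    obtain ⟨f, hf, hfe⟩ := add_null_isLeast.1
    rw [← hfe, h f hf]
  · intro h f hf
    apply le_antisymm (mono_id hf).1
    rw [h]
    exact add_null_le hf

theorem univ_cof_iff :
    (∀ f : ℕ → ℕ, StrictMono f → cofIdeal (Yorioka f) = cofIdeal (Yorioka id)) ↔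
      cofIdeal (Yorioka id) = cofIdeal NullIdeal := by
  constructor
  · intro h
    apply le_antisymm (cof_le_null strictMono_id)
    apply cof_null_isLUB.2
    rintro _ ⟨f, hf, rfl⟩
    rw [h f hf]
  · intro h f hf
    apply le_antisymm _ (mono_id hf).2
    rw [h]
    exact cof_le_null hf

end Pool.Agent.Lib.MP_7d369a_lc
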