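import Pool.Agent.Lib.MP_7d369a_lc.Null

namespace Pool.Agent.Lib.MP_7d369a_lc

open Filter Cardinal MeasureTheory
open scoped ENNReal

variable {P : ∀ {α β : Type}, (α → β → Prop) → Prop}

/-- inclusion of null sets -/
def RN : {X : Set (ℕ → Bool) // X ∈ NullIdeal} → {X : Set (ℕ → Bool) // X ∈ NullIdeal} → Prop :=
  fun X Y => X.1 ⊆ Y.1

/-- localization of arbitrary functions -/
def LocW (h : ℕ → ℕ) : (ℕ → ℕ) → {φ : ℕ → Finset ℕ // ∀ j, (φ j).card ≤ h j} → Prop :=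
  fun F φ => ∀ᶠ j in atTop, F j ∈ φ.1 j

def pos (n k : ℕ) : ℕ := (Nat.pair n k) ^ 2

def uN (n : ℕ) : List Bool := List.replicate (n + 1) false

lemma le_pos (n k : ℕ) : n ≤ pos n k :=
  (Nat.left_le_pair n k).trans (Nat.le_self_pow (by norm_num) _)

lemma pos_lt {n k l : ℕ} (h : k < l) : pos n k + (n + 1) ≤ pos n l := by
  unfold pos
  have h1 : Nat.pair n k < Nat.pair n l := Nat.pair_lt_pair_right n h
  have h2 : n ≤ Nat.pair n k := Nat.left_le_pair n k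
  nlinarith

def GF (F : ℕ → ℕ) : Set (ℕ → Bool) :=
  {x | ∃ᶠ n in atTop, ∃ s ∈ (lvl (pos n (F n)) (uN n) : Set (List Bool)), Ext s x}

lemma GF_null (F : ℕ → ℕ) : GF F ∈ NullIdeal := by
  refine null_of_blocks (w := fun n => (2:ℝ≥0∞)⁻¹ ^ (n + 1)) ?_ ?_
  · rw [ENNReal.tsum_geometric_add_one, ENNReal.one_sub_inv_two, inv_inv,
      ENNReal.inv_mul_cancel (by norm_num) (by norm_num)]
    exact ENNReal.one_ne_top
  · intro n
    simp only [Finset.mem_coe]
    refine (coin_finset_le _).trans ?_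
    refine (Finset.sum_le_card_nsmul _ _ ((2:ℝ≥0∞)⁻¹ ^ (pos n (F n) + (n + 1))) ?_).trans ?_
    · intro s hs
      rw [len_lvl hs]
      simp [uN]
    · rw [nsmul_eq_mul, pow_add]
      have h1 : ((lvl (pos n (F n)) (uN n)).card : ℝ≥0∞) ≤ (2:ℝ≥0∞) ^ pos n (F n) := by
        exact_mod_cast card_lvl _ _
      calc ((lvl (pos n (F n)) (uN n)).card : ℝ≥0∞) *
            ((2:ℝ≥0∞)⁻¹ ^ (pos n (F n)) * (2:ℝ≥0∞)⁻¹ ^ (n + 1))
          ≤ (2:ℝ≥0∞) ^ pos n (F n) * ((2:ℝ≥0∞)⁻¹ ^ (pos n (F n)) * (2:ℝ≥0∞)⁻¹ ^ (n + 1)) := by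
            gcongr
        _ = ((2:ℝ≥0∞) * 2⁻¹) ^ pos n (F n) * (2:ℝ≥0∞)⁻¹ ^ (n + 1) := by
            rw [mul_pow]; ring
        _ = (2:ℝ≥0∞)⁻¹ ^ (n + 1) := by
            rw [ENNReal.mul_inv_cancel (by norm_num) (by norm_num), one_pow, one_mul]

variable {ι : Type}

def phi (τ : ι → List Bool) (s : List Bool) (n : ℕ) : Set ℕ :=
  {k | ∀ t : List Bool, t.length = pos n k → s <+: t → dl τ (t ++ uN n) = 0}

lemma dl_lists_const (τ : ι → List Bool) (t : List Bool) (d : ℕ) (c : ℝ≥0∞)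
    (h : ∀ r ∈ lists d, dl τ (t ++ r) ≤ c) : dl τ t ≤ (2:ℝ≥0∞) ^ d * c := by
  refine (dl_le_sum τ d t).trans ((Finset.sum_le_card_nsmul _ _ c h).trans (le_of_eq ?_))
  rw [nsmul_eq_mul, card_lists]
  push_cast
  rfl

lemma key_bound (τ : ι → List Bool) (s : List Bool) (n : ℕ) (K : Finset ℕ) :
    (∀ k ∈ K, k ∈ phi τ s n) → ∀ t : List Bool, s <+: t → (∀ k ∈ K, t.length ≤ pos n k) →
      dl τ t * ((2:ℝ≥0∞) ^ (n+1)) ^ K.card ≤
        ((2 ^ (n+1) - 1 : ℕ) : ℝ≥0∞) ^ K.card * (2:ℝ≥0∞)⁻¹ ^ t.length := by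
  induction K using Finset.induction_on_min with
  | empty =>
    intro _ t _ _
    simpa using dl_le τ t
  | insert k0 K' hmin ih =>
    intro hK t hst ht
    have hk0 : k0 ∉ K' := fun h => lt_irrefl _ (hmin _ h)
    rw [Finset.card_insert_of_notMem hk0]
    set M : ℝ≥0∞ := (2:ℝ≥0∞) ^ (n+1) with hM
    set Q : ℝ≥0∞ := ((2 ^ (n+1) - 1 : ℕ) : ℝ≥0∞) with hQ
    have hMtop : M ^ (K'.card + 1) ≠ ∞ := by
      apply ENNReal.pow_ne_top
      apply ENNReal.pow_ne_top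
      norm_num
    have hM0 : M ^ (K'.card + 1) ≠ 0 := by
      apply pow_ne_zero
      apply pow_ne_zero
      norm_num
    have hMM : M * (2:ℝ≥0∞)⁻¹ ^ (n+1) = 1 := by
      rw [hM, ← mul_pow, ENNReal.mul_inv_cancel (by norm_num) (by norm_num), one_pow]
    -- bound at the nodes of length `pos n k0`
    have hnode : ∀ t' : List Bool, t'.length = pos n k0 → s <+: t' →
        dl τ t' * M ^ (K'.card + 1) ≤ Q ^ (K'.card + 1) * (2:ℝ≥0∞)⁻¹ ^ t'.length := by
      intro t' ht' hst'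
      have h0 : dl τ (t' ++ uN n) = 0 := hK k0 (Finset.mem_insert_self _ _) t' ht' hst'
      have hmem : uN n ∈ lists (n+1) := mem_lists.2 (by simp [uN])
      have h1 : dl τ t' ≤ ∑ r ∈ (lists (n+1)).erase (uN n), dl τ (t' ++ r) := by
        refine (dl_le_sum τ (n+1) t').trans (le_of_eq ?_)
        rw [← Finset.add_sum_erase _ _ hmem, h0, zero_add]
      have h2 : ∀ r ∈ (lists (n+1)).erase (uN n), dl τ (t' ++ r) * M ^ K'.card ≤
          Q ^ K'.card * (2:ℝ≥0∞)⁻¹ ^ (t'.length + (n+1)) := by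
        intro r hr
        have hrl := mem_lists.1 (Finset.mem_of_mem_erase hr)
        have hlen : (t' ++ r).length = t'.length + (n+1) := by rw [List.length_append, hrl]
        have := ih (fun k hk => hK k (Finset.mem_insert_of_mem hk)) (t' ++ r)
          (hst'.trans (List.prefix_append _ _)) (fun k hk => by
            rw [hlen, ht']
            exact pos_lt (hmin k hk))
        rwa [hlen] at this
      calc dl τ t' * M ^ (K'.card + 1)
          ≤ (∑ r ∈ (lists (n+1)).erase (uN n), dl τ (t' ++ r)) * M ^ (K'.card + 1) := by gcongr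
        _ = M * ∑ r ∈ (lists (n+1)).erase (uN n), dl τ (t' ++ r) * M ^ K'.card := by
            rw [← Finset.sum_mul]; ring
        _ ≤ M * (((lists (n+1)).erase (uN n)).card •
              (Q ^ K'.card * (2:ℝ≥0∞)⁻¹ ^ (t'.length + (n+1)))) := by
            gcongr
            exact Finset.sum_le_card_nsmul _ _ _ h2
        _ = Q ^ (K'.card + 1) * (2:ℝ≥0∞)⁻¹ ^ t'.length * (M * (2:ℝ≥0∞)⁻¹ ^ (n+1)) := by
            rw [Finset.card_erase_of_mem hmem, card_lists, nsmul_eq_mul, ← hQ, pow_add,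
              pow_succ Q]
            ring
        _ = Q ^ (K'.card + 1) * (2:ℝ≥0∞)⁻¹ ^ t'.length := by rw [hMM, mul_one]
    -- extend `t` to length `pos n k0`
    have htl := ht k0 (Finset.mem_insert_self _ _)
    set d := pos n k0 - t.length with hd
    have hc : ∀ r ∈ lists d, dl τ (t ++ r) ≤
        (M ^ (K'.card + 1))⁻¹ * (Q ^ (K'.card + 1) * (2:ℝ≥0∞)⁻¹ ^ (t.length + d)) := by
      intro r hr
      have hrl := mem_lists.1 hr
      have hlen : (t ++ r).length = pos n k0 := by rw [List.length_append, hrl]; omega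
      have := hnode (t ++ r) hlen (hst.trans (List.prefix_append _ _))
      rw [show (t ++ r).length = t.length + d by rw [List.length_append, hrl]] at this
      calc dl τ (t ++ r) = (M ^ (K'.card + 1))⁻¹ * (dl τ (t ++ r) * M ^ (K'.card + 1)) := by
            rw [mul_comm (dl τ (t ++ r)), ← mul_assoc, ENNReal.inv_mul_cancel hM0 hMtop, one_mul]
        _ ≤ _ := by gcongr
    have h3 := dl_lists_const τ t d _ hc
    calc dl τ t * M ^ (K'.card + 1)
        ≤ ((2:ℝ≥0∞) ^ d * ((M ^ (K'.card + 1))⁻¹ *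
            (Q ^ (K'.card + 1) * (2:ℝ≥0∞)⁻¹ ^ (t.length + d)))) * M ^ (K'.card + 1) := by gcongr
      _ = ((M ^ (K'.card + 1))⁻¹ * M ^ (K'.card + 1)) * (Q ^ (K'.card + 1) *
            ((2:ℝ≥0∞) ^ d * (2:ℝ≥0∞)⁻¹ ^ (t.length + d))) := by ring
      _ = Q ^ (K'.card + 1) * (2:ℝ≥0∞)⁻¹ ^ t.length := by
          rw [ENNReal.inv_mul_cancel hM0 hMtop, one_mul]
          congr 1
          rw [pow_add, mul_left_comm, ← mul_pow,
            ENNReal.mul_inv_cancel (by norm_num) (by norm_num), one_pow, mul_one]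

/-- elementary numeric fact -/
lemma two_mul_pow_le (M : ℕ) (hM : 2 ≤ M) : 2 * (M - 1) ^ M ≤ M ^ M := by
  have h1 : ∀ (a m : ℕ), a ^ m * (a + m) ≤ (a + 1) ^ m * a := by
    intro a m
    induction m with
    | zero => simp
    | succ m ih =>
      calc a ^ (m+1) * (a + (m+1)) = a * (a ^ m * (a + m)) + a ^ (m+1) := by ring
        _ ≤ a * ((a+1) ^ m * a) + (a+1)^m * a := by
            have : a ^ m ≤ (a+1) ^ m := Nat.pow_le_pow_left (Nat.le_succ a) m
            have h2 : a ^ (m+1) ≤ (a+1)^m * a := by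
              rw [pow_succ]; exact Nat.mul_le_mul_right _ this
            have h3 := Nat.mul_le_mul_left a ih
            omega
        _ = (a+1) ^ (m+1) * a := by ring
  obtain ⟨a, rfl⟩ : ∃ a, M = a + 1 := ⟨M - 1, by omega⟩
  have ha : 0 < a := by omega
  simp only [Nat.add_sub_cancel]
  have h2 := h1 a (a+1)
  have h3 : a ^ (a+1) * (2 * a) ≤ (a+1) ^ (a+1) * a :=
    le_trans (Nat.mul_le_mul_left _ (by omega)) h2
  have h4 : (2 * a ^ (a+1)) * a ≤ (a+1) ^ (a+1) * a := by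
    calc (2 * a ^ (a+1)) * a = a ^ (a+1) * (2 * a) := by ring
      _ ≤ _ := h3
  exact Nat.le_of_mul_le_mul_right h4 ha

lemma card_lt_of {M c K : ℕ} (hM : 2 ≤ M) (h : M ^ K ≤ 2 ^ c * (M - 1) ^ K) :
    K < (c + 1) * M := by
  by_contra hge
  push Not at hge
  obtain ⟨R, rfl⟩ := Nat.exists_eq_add_of_le hge
  have h1 : 2 ^ (c+1) * (M-1) ^ ((c+1) * M) ≤ M ^ ((c+1) * M) := by
    have := Nat.pow_le_pow_left (two_mul_pow_le M hM) (c+1)
    rw [mul_pow, ← pow_mul, ← pow_mul] at this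
    rw [mul_comm (c+1) M]
    exact this
  have h2 : (M-1) ^ R ≤ M ^ R := Nat.pow_le_pow_left (Nat.sub_le _ _) R
  have h3 : 2 ^ (c+1) * (M-1) ^ ((c+1) * M + R) ≤ M ^ ((c+1) * M + R) := by
    rw [pow_add (M-1), pow_add M]
    calc 2 ^ (c+1) * ((M-1) ^ ((c+1) * M) * (M-1) ^ R)
        = (2 ^ (c+1) * (M-1) ^ ((c+1) * M)) * (M-1) ^ R := by ring
      _ ≤ _ := Nat.mul_le_mul h1 h2
  have h4 := h3.trans h
  have h5 : 0 < (M-1) ^ ((c+1) * M + R) := Nat.pow_pos (by omega)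
  have h6 : 2 ^ (c+1) ≤ 2 ^ c := Nat.le_of_mul_le_mul_right h4 h5
  have h7 : 2 ^ c < 2 ^ (c+1) := Nat.pow_lt_pow_right (by norm_num) (by omega)
  omega

lemma phi_bound {τ : ι → List Bool} {s : List Bool} (hs : dl τ s ≠ 0) :
    ∃ c, ∀ n, s.length ≤ n → (phi τ s n).Finite ∧
      (phi τ s n).ncard ≤ (c + 1) * 2 ^ (n+1) := by
  obtain ⟨c, hc⟩ := exists_pow_le hs
  refine ⟨c, fun n hn => ?_⟩
  have hK : ∀ K : Finset ℕ, (K : Set ℕ) ⊆ phi τ s n → K.card ≤ (c+1) * 2 ^ (n+1) := by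
    intro K hKs
    have h1 := key_bound τ s n K (fun k hk => hKs hk) s (List.prefix_rfl)
      (fun k _ => hn.trans (le_pos n k))
    have h2 : (2:ℝ≥0∞)⁻¹ ^ c * ((2:ℝ≥0∞) ^ (n+1)) ^ K.card ≤
        ((2 ^ (n+1) - 1 : ℕ) : ℝ≥0∞) ^ K.card := by
      calc (2:ℝ≥0∞)⁻¹ ^ c * ((2:ℝ≥0∞) ^ (n+1)) ^ K.card
          ≤ dl τ s * ((2:ℝ≥0∞) ^ (n+1)) ^ K.card := by gcongr
        _ ≤ _ := h1
        _ ≤ ((2 ^ (n+1) - 1 : ℕ) : ℝ≥0∞) ^ K.card * 1 := by
            gcongr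
            exact pow_le_one' (by simp) _
        _ = _ := mul_one _
    have h3 : ((2:ℝ≥0∞) ^ (n+1)) ^ K.card ≤
        (2:ℝ≥0∞) ^ c * ((2 ^ (n+1) - 1 : ℕ) : ℝ≥0∞) ^ K.card := by
      calc ((2:ℝ≥0∞) ^ (n+1)) ^ K.card
          = (2:ℝ≥0∞) ^ c * ((2:ℝ≥0∞)⁻¹ ^ c * ((2:ℝ≥0∞) ^ (n+1)) ^ K.card) := by
            rw [← mul_assoc, ← mul_pow, ENNReal.mul_inv_cancel (by norm_num) (by norm_num),
              one_pow, one_mul]
        _ ≤ _ := by gcongr
    have h4 : (2 ^ (n+1)) ^ K.card ≤ 2 ^ c * (2 ^ (n+1) - 1) ^ K.card := by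
      exact_mod_cast h3
    have h5 : 2 ≤ 2 ^ (n+1) := by
      have : 2 ^ 1 ≤ 2 ^ (n+1) := Nat.pow_le_pow_right (by norm_num) (by omega)
      simpa using this
    exact (card_lt_of h5 h4).le
  have hfin : (phi τ s n).Finite := by
    by_contra hinf
    obtain ⟨K, hK1, hK2⟩ := Set.Infinite.exists_subset_card_eq hinf ((c+1) * 2 ^ (n+1) + 1)
    have := hK K hK1
    omega
  refine ⟨hfin, ?_⟩
  rw [Set.ncard_eq_toFinset_card _ hfin]
  exact hK _ (by simp)

open Classical in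
noncomputable def psi1 (τ : ι → List Bool) (n i : ℕ) : Finset ℕ :=
  match (Encodable.decode i : Option (List Bool)) with
  | some s => if h : (phi τ s n).Finite ∧ (phi τ s n).ncard ≤ 4 ^ n then h.1.toFinset else ∅
  | none => ∅

lemma psi1_card (τ : ι → List Bool) (n i : ℕ) : (psi1 τ n i).card ≤ 4 ^ n := by
  unfold psi1
  split
  · split_ifs with h
    · rw [← Set.ncard_eq_toFinset_card _ h.1]
      exact h.2
    · simp
  · simp

noncomputable def psi (τ : ι → List Bool) (n : ℕ) : Finset ℕ :=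
  (Finset.range (n+1)).biUnion (psi1 τ n)

lemma psi_card (τ : ι → List Bool) (n : ℕ) : (psi τ n).card ≤ 8 ^ n := by
  refine (Finset.card_biUnion_le_card_mul _ _ (4 ^ n) (fun i _ => psi1_card τ n i)).trans ?_
  rw [Finset.card_range]
  have h1 : n + 1 ≤ 2 ^ n := Nat.lt_two_pow_self
  calc (n+1) * 4 ^ n ≤ 2 ^ n * 4 ^ n := Nat.mul_le_mul_right _ h1
    _ = 8 ^ n := by rw [← mul_pow]; norm_num

theorem null_locW8 (hP : CompClosed @P) (H : P RN) : P (LocW (fun n => 8 ^ n)) := by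
  -- choose a cover for each null set
  have hcov : ∀ X : {X : Set (ℕ → Bool) // X ∈ NullIdeal}, ∃ S : Set (List Bool),
      ∑' s : S, (2:ℝ≥0∞)⁻¹ ^ s.1.length ≤ 2⁻¹ ∧ ∀ x ∈ X.1, ∃ s ∈ S, Ext s x :=
    fun X => exists_cover X.2 (by simp)
  choose S hS1 hS2 using hcov
  refine tukey hP (R := RN) (fun F => ⟨GF F, GF_null F⟩)
    (fun X => ⟨psi (fun s : S X => s.1), psi_card _⟩) ?_ H
  intro F X hFX
  set τ : S X → List Bool := fun s => s.1 with hτ
  have hroot : dl τ [] ≠ 0 := by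
    unfold dl
    rw [Ne, tsub_eq_zero_iff_le, not_le]
    have h1 : hm τ [] ≤ 2⁻¹ := by
      refine le_trans (le_of_eq ?_) (hS1 X)
      unfold hm
      exact tsum_congr fun s => by simp [wt, hτ]
    refine h1.trans_lt ?_
    simp
  obtain ⟨s, hs, J, hJ⟩ := capture_aux hroot (a := fun n => pos n (F n)) (u := uN)
    (fun j => by simp [uN]) (by
      intro x hx
      have hxG : x ∈ GF F := by
        refine hx.mono ?_
        rintro n ⟨t, ht, htx⟩
        exact ⟨t ++ uN n, by exact_mod_cast mem_lvl ht, htx⟩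
      obtain ⟨s, hs, hsx⟩ := hS2 X x (hFX hxG)
      exact ⟨⟨s, hs⟩, hsx⟩)
  obtain ⟨c, hc⟩ := phi_bound hs
  show ∀ᶠ j in atTop, F j ∈ psi τ j
  filter_upwards [eventually_ge_atTop J, eventually_ge_atTop s.length,
    eventually_ge_atTop (Encodable.encode s), eventually_ge_atTop (2 * c + 4)] with n h1 h2 h3 h4
  unfold psi
  rw [Finset.mem_biUnion]
  refine ⟨Encodable.encode s, Finset.mem_range.2 (by omega), ?_⟩
  unfold psi1
  rw [Encodable.encodek]
  simp only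
  have h5 := hc n h2
  have h6 : (c + 1) * 2 ^ (n+1) ≤ 4 ^ n := by
    have e1 : c + 1 < 2 ^ (c+1) := Nat.lt_two_pow_self
    calc (c+1) * 2 ^ (n+1) ≤ 2 ^ (c+1) * 2 ^ (n+1) := Nat.mul_le_mul_right _ e1.le
      _ = 2 ^ (c + 1 + (n + 1)) := by rw [← pow_add]
      _ ≤ 2 ^ (2 * n) := Nat.pow_le_pow_right (by norm_num) (by omega)
      _ = 4 ^ n := by rw [pow_mul]; norm_num
  rw [dif_pos ⟨h5.1, h5.2.trans h6⟩, Set.Finite.mem_toFinset]
  intro t ht hst
  exact hJ n h1 t ht hst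

end Pool.Agent.Lib.MP_7d369a_lc
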