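import Pool.Agent.Lib.MP_7d369a_lc.NullLoc

namespace Pool.Agent.Lib.MP_7d369a_lc

open Filter Cardinal MeasureTheory
open scoped ENNReal

variable {P : ∀ {α β : Type}, (α → β → Prop) → Prop}

lemma log8_tendsto : Tendsto (Nat.log 8) atTop atTop := by
  rw [tendsto_atTop]
  intro b
  filter_upwards [eventually_ge_atTop (8 ^ b)] with m hm
  exact Nat.le_log_of_pow_le (by norm_num) hm

def codeList (F : ℕ → ℕ) (N : ℕ) : ℕ := Encodable.encode ((List.range N).map F)

def readCode (v n : ℕ) : ℕ := ((Encodable.decode v : Option (List ℕ)).getD []).getD n 0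

lemma readCode_codeList {F : ℕ → ℕ} {N n : ℕ} (h : n < N) : readCode (codeList F N) n = F n := by
  unfold readCode codeList
  rw [Encodable.encodek]
  simp [h]

theorem locW_id (hP : CompClosed @P) (H : P (LocW (fun n => 8 ^ n))) :
    P (LocW (fun n => n)) := by
  classical
  refine tukey hP (R := LocW (fun n => 8 ^ n)) (fun F i => codeList F (8 ^ (i+1)))
    (fun φ => ⟨fun n => if n = 0 then ∅ else
      (φ.1 (Nat.log 8 n)).image (fun v => readCode v n), by
      intro n
      beta_reduce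
      split_ifs with h
      · simp
      · exact (Finset.card_image_le.trans (φ.2 _)).trans (Nat.pow_log_le_self 8 h)⟩) ?_ H
  rintro F ⟨φ, hφ⟩ hr
  unfold LocW at hr ⊢
  filter_upwards [log8_tendsto.eventually hr, eventually_ge_atTop 1] with n h1 hn
  have hn0 : n ≠ 0 := by omega
  rw [if_neg hn0, Finset.mem_image]
  exact ⟨_, h1, readCode_codeList (Nat.lt_pow_succ_log_self (by norm_num) n)⟩

theorem locW_dom (hP : CompClosed @P) (H : P (LocW (fun n => n))) : P Dom := by
  refine tukey hP (R := LocW (fun n => n)) (T := Dom) (fun F => F)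
    (fun φ n => (φ.1 n).sup id) ?_ H
  intro F φ hr
  unfold LocW at hr
  unfold Dom
  filter_upwards [hr] with n hn
  exact Finset.le_sup (f := id) hn

theorem locW_loc (hP : CompClosed @P) (B : ℕ → ℕ) (H : P (LocW (fun n => n))) :
    P (Loc B (fun n => n)) := by
  refine tukey hP (R := LocW (fun n => n)) (T := Loc B (fun n => n)) (fun F => F.1)
    (fun φ => φ) ?_ H
  intro F φ hr
  exact hr

theorem null_to_yor (hP : CompClosed @P) {f : ℕ → ℕ} (hf : StrictMono f) (H : P RN) :
    P (RC f) := by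
  have h1 := locW_id hP (null_locW8 hP H)
  exact (charac hP hf).2 ⟨locW_dom hP h1, locW_loc hP _ h1⟩

/-! ### from all Yorioka ideals to the null ideal -/

lemma sum_biUnion_le' {α β : Type} [DecidableEq β] (S : Finset α) (t : α → Finset β)
    (f : β → ℝ≥0∞) : ∑ s ∈ S.biUnion t, f s ≤ ∑ i ∈ S, ∑ s ∈ t i, f s := by
  classical
  induction S using Finset.induction_on with
  | empty => simp
  | insert a S ha ih =>
    rw [Finset.biUnion_insert, Finset.sum_insert ha]
    have h1 : ∑ s ∈ t a ∪ S.biUnion t, f s ≤ ∑ s ∈ t a, f s + ∑ s ∈ S.biUnion t, f s := by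
      rw [← Finset.sum_union_inter]
      exact le_self_add
    exact h1.trans (by gcongr)

lemma geom_ne_top : ∑' k : ℕ, (2:ℝ≥0∞)⁻¹ ^ (k + 1) ≠ ∞ := by
  rw [ENNReal.tsum_geometric_add_one, ENNReal.one_sub_inv_two, inv_inv,
    ENNReal.inv_mul_cancel (by norm_num) (by norm_num)]
  exact ENNReal.one_ne_top

/-- block structure of a null set -/
lemma exists_blocks {X : Set (ℕ → Bool)} (hX : X ∈ NullIdeal) :
    ∃ T : ℕ → Finset (List Bool), (∀ j, ∑ s ∈ T j, (2:ℝ≥0∞)⁻¹ ^ s.length ≤ 4⁻¹ ^ j) ∧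
      ∀ x ∈ X, ∃ᶠ j in atTop, ∃ s ∈ T j, Ext s x := by
  classical
  have hcov : ∀ k : ℕ, ∃ S : Set (List Bool),
      ∑' s : S, (2:ℝ≥0∞)⁻¹ ^ s.1.length ≤ (2:ℝ≥0∞)⁻¹ ^ (k + 1) ∧
        ∀ x ∈ X, ∃ s ∈ S, Ext s x :=
    fun k => exists_cover hX (by apply pow_ne_zero; simp)
  choose S hS1 hS2 using hcov
  -- the family indexed by pairs
  let w : ℕ × List Bool → ℝ≥0∞ := fun p =>
    if p.2 ∈ S p.1 then (2:ℝ≥0∞)⁻¹ ^ p.2.length else 0
  have hw : ∑' p, w p ≠ ∞ := by
    refine ne_top_of_le_ne_top geom_ne_top ?_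
    rw [ENNReal.tsum_prod']
    apply ENNReal.tsum_le_tsum
    intro k
    refine le_trans (le_of_eq ?_) (hS1 k)
    rw [tsum_subtype (S k) (fun s : List Bool => (2:ℝ≥0∞)⁻¹ ^ s.length)]
    exact tsum_congr fun s => by simp only [w, Set.indicator_apply]
  -- transport to `ℕ`
  let v : ℕ → ℝ≥0∞ := fun n =>
    match (Encodable.decode n : Option (ℕ × List Bool)) with
    | some p => if Encodable.encode p = n then w p else 0
    | none => 0
  have hv : ∑' n, v n ≤ ∑' p, w p := by
    have h1 : ∀ n, v n ≤ ∑' p : ℕ × List Bool, if Encodable.encode p = n then w p else 0 := by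
      intro n
      simp only [v]
      split
      · rename_i p _
        exact ENNReal.le_tsum (f := fun p : ℕ × List Bool =>
          if Encodable.encode p = n then w p else 0) p
      · exact zero_le
    refine (ENNReal.tsum_le_tsum h1).trans ?_
    rw [ENNReal.tsum_comm]
    apply ENNReal.tsum_le_tsum
    intro p
    rw [tsum_ite_eq' (Encodable.encode p) (fun _ => w p)]
  have hv' : ∑' n, v n ≠ ∞ := ne_top_of_le_ne_top hw hv
  have hvp : ∀ p : ℕ × List Bool, v (Encodable.encode p) = w p := by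
    intro p
    simp only [v, Encodable.encodek, if_pos]
  have htail := ENNReal.tendsto_sum_nat_add v hv'
  have hex : ∀ j : ℕ, ∃ n, ∑' k, v (k + n) ≤ (4:ℝ≥0∞)⁻¹ ^ j := by
    intro j
    have h4 : (0:ℝ≥0∞) < (4:ℝ≥0∞)⁻¹ ^ j := by
      apply pos_iff_ne_zero.2
      apply pow_ne_zero
      simp
    have := (htail.eventually_lt_const h4).exists
    obtain ⟨n, hn⟩ := this
    exact ⟨n, hn.le⟩
  choose n hn using hex
  let N : ℕ → ℕ := fun j => ∑ i ∈ Finset.range (j+1), (n i + 1)
  have hNs : ∀ j, N (j+1) = N j + (n (j+1) + 1) := fun j => Finset.sum_range_succ _ _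
  have hnN : ∀ j, n j ≤ N j := by
    intro j
    have : N j = ∑ i ∈ Finset.range j, (n i + 1) + (n j + 1) := Finset.sum_range_succ _ _
    omega
  have hNm : StrictMono N := strictMono_nat_of_lt_succ fun j => by rw [hNs]; omega
  have htailN : ∀ j, ∑' k, v (k + N j) ≤ (4:ℝ≥0∞)⁻¹ ^ j := by
    intro j
    refine le_trans ?_ (hn j)
    obtain ⟨d, hd⟩ := Nat.exists_eq_add_of_le (hnN j)
    have h1 : ∀ k, v (k + N j) = (fun k => v (k + n j)) (k + d) := by
      intro k
      simp only [hd]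
      congr 1
      ring
    rw [tsum_congr h1]
    exact ENNReal.tsum_comp_le_tsum_of_injective (add_left_injective d) _
  -- the blocks
  let T : ℕ → Finset (List Bool) := fun j =>
    (Finset.Ico (N j) (N (j+1))).biUnion (fun i =>
      match (Encodable.decode i : Option (ℕ × List Bool)) with
      | some p => if p.2 ∈ S p.1 ∧ Encodable.encode p = i then {p.2} else ∅
      | none => ∅)
  refine ⟨T, ?_, ?_⟩
  · intro j
    refine le_trans ?_ (htailN j)
    refine le_trans (sum_biUnion_le' _ _ _) ?_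
    have h2 : ∀ i, (∑ s ∈ (match (Encodable.decode i : Option (ℕ × List Bool)) with
      | some p => if p.2 ∈ S p.1 ∧ Encodable.encode p = i then ({p.2} : Finset (List Bool)) else ∅
      | none => ∅), (2:ℝ≥0∞)⁻¹ ^ s.length) ≤ v i := by
      intro i
      simp only [v]
      split
      · rename_i p hp
        split_ifs with h1 h2 h3
        · simp [w, h1.1]
        · exact absurd h1.2 h2
        · simp
        · simp
      · simp
    refine (Finset.sum_le_sum fun i _ => h2 i).trans ?_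
    rw [Finset.sum_Ico_eq_sum_range]
    have h3 : ∑ i ∈ Finset.range (N (j+1) - N j), v (N j + i) =
        ∑ i ∈ Finset.range (N (j+1) - N j), v (i + N j) :=
      Finset.sum_congr rfl fun i _ => by rw [add_comm]
    rw [h3]
    exact ENNReal.sum_le_tsum _
  · intro x hx
    rw [frequently_atTop]
    intro J
    -- infinitely many codes
    choose s hs1 hs2 using fun k => hS2 k x hx
    have hinj : Function.Injective (fun k : ℕ => Encodable.encode (k, s k)) := by
      intro a b hab
      have := Encodable.encode_injective hab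
      exact (Prod.mk.inj this).1
    have hinf : ∃ k, N J ≤ Encodable.encode (k, s k) := by
      by_contra hcon
      push Not at hcon
      have hfin : (Set.range (fun k : ℕ => Encodable.encode (k, s k))).Finite :=
        (Set.finite_lt_nat (N J)).subset (by rintro _ ⟨k, rfl⟩; exact hcon k)
      exact Set.infinite_range_of_injective hinj hfin
    obtain ⟨k, hk⟩ := hinf
    set i := Encodable.encode (k, s k) with hi
    have hlt : ∃ j, i < N (j+1) := by
      refine ⟨i, ?_⟩
      exact lt_of_lt_of_le (Nat.lt_succ_self i) (hNm.le_apply)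
    let j := Nat.find hlt
    have hj1 : i < N (j+1) := Nat.find_spec hlt
    have hj2 : N j ≤ i := by
      rcases Nat.eq_zero_or_pos j with h0 | h0
      · rw [h0]
        exact (hNm.monotone (Nat.zero_le J)).trans hk
      · have := Nat.find_min hlt (m := j - 1) (by omega)
        rw [Nat.sub_add_cancel h0] at this
        exact not_lt.1 this
    have hJj : J ≤ j := by
      by_contra hcon
      push Not at hcon
      have := hNm.monotone (Nat.succ_le_of_lt hcon)
      have h5 : N (j+1) ≤ i := this.trans hk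
      omega
    refine ⟨j, hJj, s k, ?_, hs2 k⟩
    simp only [T, Finset.mem_biUnion]
    refine ⟨i, Finset.mem_Ico.2 ⟨hj2, hj1⟩, ?_⟩
    rw [hi, Encodable.encodek]
    simp [hs1 k]

/-- union of the admissible blocks coded in a finite set -/
noncomputable def NB (φ : ℕ → Finset ℕ) (j : ℕ) : Finset (List Bool) := by
  classical
  exact (φ j).biUnion (fun c => match (Encodable.decode c : Option (Finset (List Bool))) with
    | some T => if ∑ s ∈ T, (2:ℝ≥0∞)⁻¹ ^ s.length ≤ 4⁻¹ ^ j then T else ∅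
    | none => ∅)

lemma NB_weight (φ : ℕ → Finset ℕ) (j : ℕ) (h : (φ j).card ≤ j) :
    ∑ s ∈ NB φ j, (2:ℝ≥0∞)⁻¹ ^ s.length ≤ (2:ℝ≥0∞)⁻¹ ^ j := by
  classical
  unfold NB
  refine le_trans (sum_biUnion_le' _ _ _) ?_
  have h2 : ∀ c ∈ φ j, (∑ s ∈ (match (Encodable.decode c : Option (Finset (List Bool))) with
      | some T => if ∑ s ∈ T, (2:ℝ≥0∞)⁻¹ ^ s.length ≤ 4⁻¹ ^ j then T else ∅
      | none => ∅), (2:ℝ≥0∞)⁻¹ ^ s.length) ≤ (4:ℝ≥0∞)⁻¹ ^ j := by
    intro c _
    split
    · split_ifs with h1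
      · exact h1
      · simp
    · simp
  refine (Finset.sum_le_card_nsmul _ _ _ h2).trans ?_
  rw [nsmul_eq_mul]
  have h3 : ((φ j).card : ℝ≥0∞) ≤ (2:ℝ≥0∞) ^ j := by
    have : (φ j).card ≤ 2 ^ j := h.trans (Nat.lt_two_pow_self).le
    exact_mod_cast this
  have h4 : (4:ℝ≥0∞)⁻¹ = 2⁻¹ * 2⁻¹ := by
    rw [← ENNReal.mul_inv (by norm_num) (by norm_num)]
    norm_num
  calc ((φ j).card : ℝ≥0∞) * (4:ℝ≥0∞)⁻¹ ^ j ≤ (2:ℝ≥0∞) ^ j * (4:ℝ≥0∞)⁻¹ ^ j := by gcongr
    _ = ((2:ℝ≥0∞) * 2⁻¹) ^ j * (2:ℝ≥0∞)⁻¹ ^ j := by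
        rw [h4, mul_pow, mul_pow]; ring
    _ = (2:ℝ≥0∞)⁻¹ ^ j := by
        rw [ENNReal.mul_inv_cancel (by norm_num) (by norm_num), one_pow, one_mul]

lemma NB_null (φ : {φ : ℕ → Finset ℕ // ∀ j, (φ j).card ≤ j}) :
    {x | ∃ᶠ j in atTop, ∃ s ∈ (NB φ.1 j : Set (List Bool)), Ext s x} ∈ NullIdeal := by
  refine null_of_blocks (w := fun j => (2:ℝ≥0∞)⁻¹ ^ j) ?_ ?_
  · rw [ENNReal.tsum_geometric, ENNReal.one_sub_inv_two, inv_inv]
    norm_num
  · intro j
    simp only [Finset.mem_coe]
    exact (coin_finset_le _).trans (NB_weight _ j (φ.2 j))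

theorem yor_to_null (hP : CompClosed @P) (H1 : P Dom)
    (H2 : ∀ B : ℕ → ℕ, P (Loc B (fun n => n))) : P RN := by
  classical
  choose T hT1 hT2 using fun X : {X : Set (ℕ → Bool) // X ∈ NullIdeal} => exists_blocks X.2
  refine hP (γ := fun t => {F : ℕ → ℕ // ∀ j, F j < t j + 1})
    (δ := fun _ => {φ : ℕ → Finset ℕ // ∀ j, (φ j).card ≤ j}) Dom
    (fun t => Loc (fun j => t j + 1) (fun n => n)) RN
    (fun X j => Encodable.encode (T X j))
    (fun t X => ⟨fun j => if Encodable.encode (T X j) < t j + 1 then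
      Encodable.encode (T X j) else 0, by
      intro j
      beta_reduce
      split_ifs with h
      · exact h
      · omega⟩)
    (fun t φ => ⟨_, NB_null φ⟩) ?_ H1 (fun t => H2 _)
  intro X t φ h1 h2
  intro x hx
  have hfr := hT2 X x hx
  refine (hfr.and_eventually (h1.and h2)).mono ?_
  rintro j ⟨⟨s, hs, hsx⟩, hj1, hj2⟩
  refine ⟨s, ?_, hsx⟩
  have hj3 : Encodable.encode (T X j) < t j + 1 := Nat.lt_succ_of_le hj1
  have hj2' : (if Encodable.encode (T X j) < t j + 1 then
      Encodable.encode (T X j) else 0) ∈ φ.1 j := hj2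
  rw [if_pos hj3] at hj2'
  rw [Finset.mem_coe]
  unfold NB
  rw [Finset.mem_biUnion]
  refine ⟨_, hj2', ?_⟩
  rw [Encodable.encodek]
  simp only
  rw [if_pos (hT1 X j)]
  exact hs

theorem all_yor_to_null (hP : CompClosed @P) (H : ∀ f : ℕ → ℕ, StrictMono f → P (RC f)) :
    P RN := by
  refine yor_to_null hP (step1 hP strictMono_id (H id strictMono_id)) ?_
  intro B
  let f : ℕ → ℕ := e1 B
  have hf : StrictMono f := by
    apply strictMono_nat_of_lt_succ
    intro n
    simp only [f, e1]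
    rw [Finset.sum_range_succ _ (n+1)]
    omega
  refine loc_mono hP (fun j => by positivity) (Eventually.of_forall fun n => ?_)
    (Eventually.of_forall fun _ => le_rfl) ((charac hP hf).1 (H f hf)).2
  exact (le_e1 B n).trans (Nat.lt_two_pow_self).le

end Pool.Agent.Lib.MP_7d369a_lc
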