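import Pool.Agent.Lib.MP_7d369a_lc.Capture2

namespace Pool.Agent.Lib.MP_7d369a_lc

open Filter Cardinal

/-- A property of relations closed under (adaptive) composition. -/
def CompClosed (P : ∀ {α β : Type}, (α → β → Prop) → Prop) : Prop :=
  ∀ {α β ε ζ : Type} {γ δ : β → Type} (R : α → β → Prop) (S : ∀ b, γ b → δ b → Prop)
    (T : ε → ζ → Prop) (u : ε → α) (v : ∀ b, ε → γ b) (w : ∀ b, δ b → ζ),
    (∀ e b d, R (u e) b → S b (v b e) d → T e (w b d)) → P R → (∀ b, P (S b)) → P T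

/-- codes for members of the ideal `I_f` -/
abbrev Code (f : ℕ → ℕ) : Type := {σ : ℕ → List Bool // LL f (fun n => (σ n).length)}

/-- inclusion of coded sets -/
def RC (f : ℕ → ℕ) : Code f → Code f → Prop := fun σ τ => limsupSet σ.1 ⊆ limsupSet τ.1

/-- eventual domination -/
def Dom : (ℕ → ℕ) → (ℕ → ℕ) → Prop := fun x t => ∀ᶠ j in atTop, x j ≤ t j

/-- localization of functions below `B` by slaloms of width `h` -/
def Loc (B h : ℕ → ℕ) :
    {F : ℕ → ℕ // ∀ j, F j < B j} → {φ : ℕ → Finset ℕ // ∀ j, (φ j).card ≤ h j} → Prop :=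
  fun F φ => ∀ᶠ j in atTop, F.1 j ∈ φ.1 j

variable {P : ∀ {α β : Type}, (α → β → Prop) → Prop}

lemma comp (hP : CompClosed @P) {α β γ δ ε ζ : Type} (R : α → β → Prop) (S : γ → δ → Prop)
    (T : ε → ζ → Prop) (u : ε → α) (v : β → ε → γ) (w : β → δ → ζ)
    (h : ∀ e b d, R (u e) b → S (v b e) d → T e (w b d)) (hR : P R) (hS : P S) : P T :=
  hP (γ := fun _ => γ) (δ := fun _ => δ) R (fun _ => S) T u v w h hR (fun _ => hS)

lemma tukey (hP : CompClosed @P) {α β ε ζ : Type} {R : α → β → Prop} {T : ε → ζ → Prop}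
    (u : ε → α) (w : β → ζ) (h : ∀ e b, R (u e) b → T e (w b)) (hR : P R) : P T :=
  comp hP R R T u (fun _ e => u e) (fun b _ => w b) (fun e b _ h1 _ => h e b h1) hR hR

/-- a threshold function of a code -/
noncomputable def thr {f : ℕ → ℕ} (σ : Code f) (k : ℕ) : ℕ :=
  (eventually_atTop.1 (σ.2 k)).choose

lemma thr_spec {f : ℕ → ℕ} (σ : Code f) (k m : ℕ) (h : thr σ k ≤ m) :
    f (m ^ k) ≤ (σ.1 m).length :=
  (eventually_atTop.1 (σ.2 k)).choose_spec m h

/-- levels given by all strings of length `a` followed by `u` -/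
def lvl (a : ℕ) (u : List Bool) : Finset (List Bool) := (lists a).image (fun t => t ++ u)

lemma card_lvl (a : ℕ) (u : List Bool) : (lvl a u).card ≤ 2 ^ a := by
  rw [← card_lists a]; exact Finset.card_image_le

lemma mem_lvl {a : ℕ} {u t : List Bool} (h : t.length = a) : t ++ u ∈ lvl a u :=
  Finset.mem_image.2 ⟨t, mem_lists.2 h, rfl⟩

lemma len_lvl {a : ℕ} {u s : List Bool} (h : s ∈ lvl a u) : s.length = a + u.length := by
  obtain ⟨t, ht, rfl⟩ := Finset.mem_image.1 h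
  rw [List.length_append, mem_lists.1 ht]

/-! ### Step 1: the dominating relation -/

noncomputable section S1

def u1 (f a : ℕ → ℕ) (j : ℕ) : List Bool := List.replicate (f (2 ^ (a j * j))) false

lemma length_u1 (f a : ℕ → ℕ) (j : ℕ) : (u1 f a j).length = f (2 ^ (a j * j)) := by simp [u1]

lemma u1_ne {f : ℕ → ℕ} (hf : StrictMono f) (a : ℕ → ℕ) (j : ℕ) : u1 f a j ≠ [] := by
  rw [← List.length_pos_iff, length_u1]
  have h1 : 0 < 2 ^ (a j * j) := by positivity
  exact h1.trans_le hf.le_apply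

lemma exists_code1 {f : ℕ → ℕ} (hf : StrictMono f) {a : ℕ → ℕ} (ha : Monotone a)
    (hja : ∀ j, j ≤ a j) : ∃ ρ : Code f, ∀ x : ℕ → Bool,
    (∃ᶠ j in atTop, ∃ t : List Bool, t.length = a j ∧ Ext (t ++ u1 f a j) x) →
      x ∈ limsupSet ρ.1 := by
  obtain ⟨ρ, h1, h2⟩ := enum (f := f) hf.monotone (S := fun j => lvl (a j) (u1 f a j))
    (N := fun j => 2 ^ (a j)) (lam := fun j => f (2 ^ (a j * j)))
    (fun i j hij => Nat.pow_le_pow_right (by norm_num) (ha hij))
    (fun j => Nat.one_le_two_pow) (fun j => card_lvl _ _)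
    (fun j s hs => by
      rw [len_lvl hs, length_u1]
      exact Nat.le_add_left _ _)
    (by
      intro k
      filter_upwards [eventually_ge_atTop (2 * k)] with j hj
      apply hf.monotone
      have h1 : j + 1 ≤ 2 ^ (a j) :=
        (Nat.lt_two_pow_self (n := j)).trans_le (Nat.pow_le_pow_right (by norm_num) (hja j))
      calc ((j+1) * 2 ^ (a j)) ^ k
          ≤ (2 ^ (a j) * 2 ^ (a j)) ^ k := by gcongr
        _ = 2 ^ (a j * (2 * k)) := by
            rw [← pow_add, ← pow_mul]; congr 1; ring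
        _ ≤ 2 ^ (a j * j) :=
            Nat.pow_le_pow_right (by norm_num) (Nat.mul_le_mul_left _ hj))
  refine ⟨⟨ρ, h1⟩, fun x hx => h2 x ?_⟩
  refine hx.mono ?_
  rintro j ⟨t, ht, htx⟩
  exact ⟨t ++ u1 f a j, mem_lvl ht, htx⟩

def e1 (z : ℕ → ℕ) (j : ℕ) : ℕ := j + ∑ i ∈ Finset.range (j+1), z i

lemma e1_mono (z : ℕ → ℕ) : Monotone (e1 z) := by
  apply monotone_nat_of_le_succ
  intro j
  unfold e1
  rw [Finset.sum_range_succ _ (j+1)]
  omega

lemma le_e1 (z : ℕ → ℕ) (j : ℕ) : z j ≤ e1 z j := by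
  unfold e1
  rw [Finset.sum_range_succ]
  omega

lemma le_e1' (z : ℕ → ℕ) (j : ℕ) : j ≤ e1 z j := by
  unfold e1; omega

def a1 (z : ℕ → ℕ) (j : ℕ) : ℕ := 2 * e1 z j

lemma a1_mono (z : ℕ → ℕ) : Monotone (a1 z) := fun _ _ h => Nat.mul_le_mul_left _ (e1_mono z h)

lemma le_a1 (z : ℕ → ℕ) (j : ℕ) : j ≤ a1 z j := by
  have := le_e1' z j
  unfold a1; omega

/-- the counting bound used several times -/
lemma count_bound {f : ℕ → ℕ} (hf : StrictMono f) (σ : Code f) {k m x y r : ℕ}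
    (hm : thr σ k ≤ m) (hlen : (σ.1 m).length ≤ f x + y) (hxy : x + y ≤ r ^ k) (hk : k ≠ 0) :
    m ≤ r := by
  have h1 := (thr_spec σ k m hm).trans (hlen.trans (add_le_of_strictMono hf x y))
  have h2 : m ^ k ≤ x + y := hf.le_iff_le.1 h1
  exact (Nat.pow_le_pow_iff_left hk).1 (h2.trans hxy)

theorem step1 (hP : CompClosed @P) {f : ℕ → ℕ} (hf : StrictMono f) (h : P (RC f)) : P Dom := by
  refine tukey hP (fun z => (exists_code1 hf (a1_mono z) (le_a1 z)).choose)
    (fun σ j => thr σ (4 * j)) ?_ h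
  intro z σ hσ
  have hz := (exists_code1 hf (a1_mono z) (le_a1 z)).choose_spec
  have hat : Tendsto (a1 z) atTop atTop :=
    tendsto_atTop_mono (f := fun j : ℕ => j) (le_a1 z) tendsto_id
  obtain ⟨c, hc⟩ := capture hf σ.2 (a := a1 z) (q := fun j => 2 ^ (a1 z j * j))
    (u := u1 f (a1 z)) hat (u1_ne hf _)
    (by
      filter_upwards [eventually_ge_atTop 2] with j hj
      have h0 := le_a1 z j
      refine ⟨?_, ?_, length_u1 _ _ _⟩
      · have h1 : a1 z j < 2 ^ (a1 z j) := Nat.lt_two_pow_self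
        have h2 : 2 ^ (a1 z j) ≤ 2 ^ (a1 z j * j) :=
          Nat.pow_le_pow_right (by norm_num) (Nat.le_mul_of_pos_right _ (by omega))
        exact h1.le.trans h2
      · have : 2 ^ 2 ≤ 2 ^ (a1 z j * j) :=
          Nat.pow_le_pow_right (by norm_num) (by nlinarith)
        simpa using this)
    (fun x hx => hσ (hz x hx))
  unfold Dom
  filter_upwards [hc, eventually_ge_atTop (c + 3)] with j hj hj2
  by_contra hcon
  push Not at hcon
  have he : thr σ (4 * j) < e1 z j := hcon.trans_le (le_e1 z j)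
  have hej := le_e1' z j
  have ha : a1 z j = 2 * e1 z j := rfl
  set e := e1 z j with hedef
  rw [ha] at hj
  have hpow : 2 ^ (2 * e * j) + (2 * e + 2 ^ (2 * e * j)) ≤ (2 ^ e) ^ (4 * j) := by
    have h1 : 2 * e < 2 ^ (2 * e) := Nat.lt_two_pow_self
    have h2 : 2 ^ (2 * e) ≤ 2 ^ (2 * e * j) :=
      Nat.pow_le_pow_right (by norm_num) (Nat.le_mul_of_pos_right _ (by omega))
    have h3 : 4 ≤ 2 ^ (2 * e * j) := by
      have : 2 ^ 2 ≤ 2 ^ (2 * e * j) :=
        Nat.pow_le_pow_right (by norm_num) (by nlinarith)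
      simpa using this
    have h4 : (2 ^ e) ^ (4 * j) = 2 ^ (2 * e * j) * 2 ^ (2 * e * j) := by
      rw [← pow_mul, ← pow_add]; congr 1; ring
    rw [h4]
    nlinarith
  obtain ⟨m, t, _, h2, h3, _⟩ := hj (2 * e + f (2 ^ (2 * e * j)) + 2 ^ (2 * e * j))
    (thr σ (4*j) + 2 ^ e + 1)
    (by
      intro m hm
      by_contra hge
      push Not at hge
      have h3 : m ≤ 2 ^ e := count_bound hf σ (k := 4 * j) (x := 2 ^ (2 * e * j))
        (y := 2 * e + 2 ^ (2 * e * j))
        ((Nat.le_add_right _ _).trans ((Nat.le_add_right _ _).trans hge))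
        (by refine hm.trans (le_of_eq ?_); ring) hpow (by omega)
      omega)
    (by
      have h1 : e < 2 ^ e := Nat.lt_two_pow_self
      have h2 : 1 ≤ 2 ^ e := Nat.one_le_two_pow
      calc 2 ^ c * (thr σ (4*j) + 2 ^ e + 1) ≤ 2 ^ c * (2 ^ 2 * 2 ^ e) := by
            apply Nat.mul_le_mul_left; omega
        _ = 2 ^ (c + 2 + e) := by rw [← pow_add, ← pow_add]; congr 1; ring
        _ < 2 ^ (2 * e) := Nat.pow_lt_pow_right (by norm_num) (by omega))
  exact absurd h2 (not_lt.2 h3)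

end S1

end Pool.Agent.Lib.MP_7d369a_lc
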